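import Mathlib

/-!
# Rectangles and bicliques: definitions
-/

set_option autoImplicit false

namespace Pool.Agent.V5helper69.BR

/-- The pair `(x, y)` lies in none of the rectangles `A j × B j`. -/
def Avoids {V ι : Type} (A B : ι → Set V) (x y : V) : Prop := ∀ j, ¬ (x ∈ A j ∧ y ∈ B j)

/-- The graph `G` contains no complete bipartite graph `K_{s,t}`. -/
def NoBiclique {V : Type} (G : SimpleGraph V) (s t : ℕ) : Prop :=
  ¬ ∃ S T : Finset V, S.card = s ∧ T.card = t ∧ ∀ x ∈ S, ∀ y ∈ T, G.Adj x y

end Pool.Agent.V5helper69.BR
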