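import Pool.Agent.V5helper69.BR.Rand
import Pool.Agent.V5helper69.BR.Defs

/-!
# The lower bound: parameters and the graph
-/

set_option autoImplicit false

namespace Pool.Agent.V5helper69.BR

open Finset Filter Topology
open scoped Classical

theorem one_sub_pow_le {P : ℝ} (h0 : 0 ≤ P) (h1 : P ≤ 1) (s : ℕ) :
    s * P / (1 + s * P) ≤ 1 - (1 - P) ^ s := by
  have h2 : (1 - P) ≤ Real.exp (-P) := by
    have := Real.add_one_le_exp (-P)
    linarith
  have h3 : (1 - P) ^ s ≤ Real.exp (-(s * P)) := by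
    calc (1 - P) ^ s ≤ Real.exp (-P) ^ s := pow_le_pow_left₀ (by linarith) h2 _
      _ = Real.exp (-(s * P)) := by rw [← Real.exp_nat_mul]; ring_nf
  have h4 : 1 + s * P ≤ Real.exp (s * P) := by
    have := Real.add_one_le_exp ((s : ℝ) * P)
    linarith
  have h5 : 0 < 1 + (s : ℝ) * P := by positivity
  have h6 : Real.exp (-(s * P)) ≤ 1 / (1 + s * P) := by
    rw [Real.exp_neg, ← one_div]
    exact one_div_le_one_div_of_le h5 h4
  have h7 : (s : ℝ) * P / (1 + s * P) = 1 - 1 / (1 + s * P) := by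
    field_simp
    ring
  rw [h7]
  linarith

/-- The choice of the parameters. -/
theorem params {s : ℕ} (hs : 2 ≤ s) {ε : ℝ} (hε : 0 < ε) : ∃ t q : ℕ, 1 ≤ t ∧ 1 ≤ q ∧
    ∃ a v : ℝ, 0 < a ∧ 0 < v ∧
      a = (1 / ((q : ℝ) + 1)) ^ 2 / (1 - (1 / ((q : ℝ) + 1)) ^ 2) ∧
      v + a ≤ (1 - (1 - 1 / ((q : ℝ) + 1)) ^ s) * (1 - (1 - 1 / ((q : ℝ) + 1)) ^ t) ∧
      a * (s + t + 1) / v ≤ 1 / (s : ℝ) + ε / 2 := by
  have hs' : (2 : ℝ) ≤ s := by exact_mod_cast hs
  set μ : ℝ := 1 / (s : ℝ) + ε / 2 with hμ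
  have hμ0 : 0 < μ := by positivity
  -- choice of `t`
  obtain ⟨t, ht⟩ := exists_nat_gt ((((s : ℝ) + 1 + μ + 1) / (s * (ε / 2))))
  have ht0 : (0 : ℝ) < t := by
    refine lt_of_le_of_lt ?_ ht
    positivity
  have ht1 : 1 ≤ t := by
    have : 0 < t := by exact_mod_cast ht0
    omega
  rw [div_lt_iff₀ (by positivity)] at ht
  have hkey : (1 + ((s : ℝ) + t + 1) / μ) < s * t := by
    have h1 : (s : ℝ) + t + 1 + μ < s * t * μ := by
      have h2 : (s : ℝ) * t * μ = t + t * (s * (ε / 2)) := by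
        rw [hμ]
        field_simp
      rw [h2]
      linarith
    have h3 : 1 + ((s : ℝ) + t + 1) / μ = (s + t + 1 + μ) / μ := by
      field_simp
      ring
    rw [h3, div_lt_iff₀ hμ0]
    exact h1
  -- choice of `q`
  set g : ℝ → ℝ := fun P => (s * t : ℝ) * (1 - P ^ 2) / ((1 + s * P) * (1 + t * P)) with hg
  have hcont : ContinuousAt g 0 := by
    rw [hg]
    refine ContinuousAt.div (by fun_prop) (by fun_prop) ?_
    norm_num
  have hg0 : g 0 = s * t := by simp [hg]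
  have htend : Tendsto (fun q : ℕ => g (1 / ((q : ℝ) + 1))) atTop (𝓝 (s * t)) := by
    rw [← hg0]
    exact hcont.tendsto.comp tendsto_one_div_add_atTop_nhds_zero_nat
  obtain ⟨q, hq, hq1⟩ := ((htend.eventually (lt_mem_nhds hkey)).and
    (eventually_ge_atTop 1)).exists
  refine ⟨t, q, ht1, hq1, ?_⟩
  set P : ℝ := 1 / ((q : ℝ) + 1) with hP
  have hP0 : 0 < P := by positivity
  have hP1 : P ≤ 1 / 2 := by
    have h1 : (1 : ℝ) ≤ q := by exact_mod_cast hq1
    exact one_div_le_one_div_of_le (by norm_num) (by linarith)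
  have hP2 : 0 < 1 - P ^ 2 := by nlinarith
  set a : ℝ := P ^ 2 / (1 - P ^ 2) with ha
  have ha0 : 0 < a := by positivity
  set u : ℝ := (1 - (1 - P) ^ s) * (1 - (1 - P) ^ t) with hu
  have hu1 : a * g P ≤ u := by
    have h1 := one_sub_pow_le hP0.le (by linarith) s
    have h2 := one_sub_pow_le hP0.le (by linarith) t
    have h3 : a * g P = (s * P / (1 + s * P)) * (t * P / (1 + t * P)) := by
      rw [ha, hg]
      simp only
      field_simp
    rw [h3, hu]
    refine mul_le_mul h1 h2 (by positivity) ?_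
    exact le_trans (by positivity) h1
  have hv : 0 < ((s : ℝ) + t + 1) / μ := by positivity
  refine ⟨a, a * (((s : ℝ) + t + 1) / μ), ha0, by positivity, rfl, ?_, ?_⟩
  · refine le_trans ?_ hu1
    have h1 := mul_le_mul_of_nonneg_left hq.le ha0.le
    linarith
  · refine le_of_eq ?_
    have h1 : (s : ℝ) + t + 1 ≠ 0 := by positivity
    field_simp

/-- The graph with the two classes `V0` and its complement. -/
def bip {n q L : ℕ} (V0 : Finset (Fin n))
    (w : Fin L → (Fin n → Fin (q + 1)) × (Fin n → Fin (q + 1))) : SimpleGraph (Fin n) where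
  Adj x y := (x ∈ V0 ∧ y ∉ V0 ∧ Rw w x y) ∨ (x ∉ V0 ∧ y ∈ V0 ∧ Rw w y x)
  symm := ⟨fun x y h => by tauto⟩
  loopless := ⟨fun x h => by tauto⟩

/-- left sides of the rectangles -/
def rA {n q L : ℕ} (V0 : Finset (Fin n))
    (w : Fin L → (Fin n → Fin (q + 1)) × (Fin n → Fin (q + 1))) :
    (Fin L × Bool) ⊕ Bool → Set (Fin n)
  | Sum.inl (j, false) => {x | x ∈ V0 ∧ (w j).1 x = 0}
  | Sum.inl (j, true) => {x | x ∉ V0 ∧ (w j).2 x = 0}
  | Sum.inr false => {x | x ∈ V0}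
  | Sum.inr true => {x | x ∉ V0}

/-- right sides of the rectangles -/
def rB {n q L : ℕ} (V0 : Finset (Fin n))
    (w : Fin L → (Fin n → Fin (q + 1)) × (Fin n → Fin (q + 1))) :
    (Fin L × Bool) ⊕ Bool → Set (Fin n)
  | Sum.inl (j, false) => {x | x ∉ V0 ∧ (w j).2 x = 0}
  | Sum.inl (j, true) => {x | x ∈ V0 ∧ (w j).1 x = 0}
  | Sum.inr false => {x | x ∈ V0}
  | Sum.inr true => {x | x ∉ V0}

theorem bip_avoids {n q L : ℕ} (V0 : Finset (Fin n))
    (w : Fin L → (Fin n → Fin (q + 1)) × (Fin n → Fin (q + 1))) (x y : Fin n) :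
    (bip V0 w).Adj x y ↔ Avoids (rA V0 w) (rB V0 w) x y := by
  unfold Avoids bip Rw
  simp only
  constructor
  · rintro (⟨hx, hy, h⟩ | ⟨hx, hy, h⟩)
    · rintro (⟨j, (_ | _)⟩ | (_ | _))
      · simp only [rA, rB, Set.mem_ofPred_eq]
        have := h j
        tauto
      · simp only [rA, rB, Set.mem_ofPred_eq]
        tauto
      · simp only [rA, rB, Set.mem_ofPred_eq]
        tauto
      · simp only [rA, rB, Set.mem_ofPred_eq]
        tauto
    · rintro (⟨j, (_ | _)⟩ | (_ | _))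
      · simp only [rA, rB, Set.mem_ofPred_eq]
        tauto
      · simp only [rA, rB, Set.mem_ofPred_eq]
        have := h j
        tauto
      · simp only [rA, rB, Set.mem_ofPred_eq]
        tauto
      · simp only [rA, rB, Set.mem_ofPred_eq]
        tauto
  · intro h
    have h1 := h (Sum.inr false)
    have h2 := h (Sum.inr true)
    simp only [rA, rB, Set.mem_ofPred_eq] at h1 h2
    by_cases hx : x ∈ V0
    · left
      refine ⟨hx, fun hy => h1 ⟨hx, hy⟩, fun j hj => ?_⟩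
      have h3 := h (Sum.inl (j, false))
      simp only [rA, rB, Set.mem_ofPred_eq] at h3
      exact h3 ⟨⟨hx, hj.1⟩, ⟨fun hy => h1 ⟨hx, hy⟩, hj.2⟩⟩
    · right
      have hy : y ∈ V0 := by
        by_contra hy
        exact h2 ⟨hx, hy⟩
      refine ⟨hx, hy, fun j hj => ?_⟩
      have h3 := h (Sum.inl (j, true))
      simp only [rA, rB, Set.mem_ofPred_eq] at h3
      exact h3 ⟨⟨hx, hj.2⟩, ⟨hy, hj.1⟩⟩

theorem bip_nobiclique {n q L s t : ℕ} (V0 : Finset (Fin n))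
    (w : Fin L → (Fin n → Fin (q + 1)) × (Fin n → Fin (q + 1))) (hs : 1 ≤ s) (ht : 1 ≤ t)
    (h1 : ∀ S T : Finset (Fin n), S.card = s → T.card = t → ¬ ∀ x ∈ S, ∀ y ∈ T, Rw w x y)
    (h2 : ∀ S T : Finset (Fin n), S.card = t → T.card = s → ¬ ∀ x ∈ S, ∀ y ∈ T, Rw w x y) :
    NoBiclique (bip V0 w) s t := by
  rintro ⟨S, T, hS, hT, h⟩
  obtain ⟨x0, hx0⟩ : S.Nonempty := by rw [← card_pos]; omega
  obtain ⟨y0, hy0⟩ : T.Nonempty := by rw [← card_pos]; omega
  have hadj : ∀ x ∈ S, ∀ y ∈ T, (x ∈ V0 ∧ y ∉ V0 ∧ Rw w x y) ∨ (x ∉ V0 ∧ y ∈ V0 ∧ Rw w y x) :=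
    fun x hx y hy => h x hx y hy
  rcases hadj x0 hx0 y0 hy0 with ⟨hx, hy, _⟩ | ⟨hx, hy, _⟩
  · refine h1 S T hS hT fun x hxS y hyT => ?_
    rcases hadj x hxS y hyT with h3 | h3
    · exact h3.2.2
    · rcases hadj x hxS y0 hy0 with h4 | h4
      · exact absurd h4.1 h3.1
      · exact absurd h4.2.1 hy
  · refine h2 T S hT hS fun y hyT x hxS => ?_
    rcases hadj x hxS y hyT with h3 | h3
    · rcases hadj x hxS y0 hy0 with h4 | h4
      · exact absurd hy h4.2.1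
      · exact absurd h3.1 h4.1
    · exact h3.2.2

theorem bip_edges {n q L : ℕ} (V0 : Finset (Fin n))
    (w : Fin L → (Fin n → Fin (q + 1)) × (Fin n → Fin (q + 1))) :
    ed (Rw w) V0 V0ᶜ ≤ ((bip V0 w).edgeSet.ncard : ℝ) := by
  set E := (V0 ×ˢ V0ᶜ).filter fun p => Rw w p.1 p.2 with hE
  have h1 : ed (Rw w) V0 V0ᶜ = E.card := by
    unfold ed
    rw [hE, card_filter, sum_product]
    push_cast
    rfl
  rw [h1]
  have h2 : E.card = (E.image fun p => s(p.1, p.2)).card := by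
    refine (card_image_of_injOn ?_).symm
    intro p hp p' hp' hpp
    rw [mem_coe, hE, mem_filter, mem_product, mem_compl] at hp hp'
    simp only [Sym2.eq_iff] at hpp
    rcases hpp with ⟨h3, h4⟩ | ⟨h3, h4⟩
    · exact Prod.ext h3 h4
    · exfalso
      rw [h3] at hp
      exact hp'.1.2 hp.1.1
  rw [h2, ← Set.ncard_coe_finset]
  refine Nat.cast_le.2 (Set.ncard_le_ncard ?_ (Set.toFinite _))
  intro e he
  rw [mem_coe, mem_image] at he
  obtain ⟨p, hp, rfl⟩ := he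
  rw [hE, mem_filter, mem_product, mem_compl] at hp
  rw [SimpleGraph.mem_edgeSet]
  exact Or.inl ⟨hp.1.1, hp.1.2, hp.2⟩

theorem lower {s : ℕ} (hs : 2 ≤ s) {ε : ℝ} (hε : 0 < ε) : ∃ (t : ℕ) (C : ℝ),
    ∀ᶠ n : ℕ in atTop, ∃ (G : SimpleGraph (Fin n)) (ι : Type) (_ : Fintype ι)
      (A B : ι → Set (Fin n)), (Fintype.card ι : ℝ) ≤ C * Real.log n ∧
      (∀ x y, G.Adj x y ↔ Avoids A B x y) ∧ NoBiclique G s t ∧
      (n : ℝ) ^ (2 - 1 / (s : ℝ) - ε) ≤ (G.edgeSet.ncard : ℝ) := by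
  obtain ⟨t, q, ht, hq, a, v, ha, hv, hadef, hva, hbound⟩ := params hs hε
  set lam : ℝ := (s + t + 1) / v with hlam
  have hlam0 : 0 < lam := by positivity
  refine ⟨t, 2 * lam + 4, ?_⟩
  have hlog : Tendsto (fun n : ℕ => Real.log n) atTop atTop :=
    Real.tendsto_log_atTop.comp tendsto_natCast_atTop_atTop
  have hpow : Tendsto (fun n : ℕ => (n : ℝ) ^ (ε / 2)) atTop atTop :=
    (tendsto_rpow_atTop (by positivity)).comp tendsto_natCast_atTop_atTop
  filter_upwards [eventually_ge_atTop 36, hlog.eventually_ge_atTop 1,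
    hpow.eventually_ge_atTop (18 * Real.exp a)] with n hn hl1 hp1
  have hn' : (36 : ℝ) ≤ n := by exact_mod_cast hn
  have hn0 : (0 : ℝ) < n := by linarith
  obtain ⟨V0, _, hV0⟩ := exists_subset_card_eq (s := (univ : Finset (Fin n))) (n := n / 2)
    (by rw [card_univ, Fintype.card_fin]; omega)
  have hV1 : (V0ᶜ).card = n - n / 2 := by
    rw [card_compl, Fintype.card_fin, hV0]
  set L : ℕ := ⌈lam * Real.log n⌉₊ with hL
  have hL1 : lam * Real.log n ≤ L := Nat.le_ceil _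
  have hL2 : (L : ℝ) ≤ lam * Real.log n + 1 :=
    (Nat.ceil_lt_add_one (by positivity)).le
  have hV0r : (n : ℝ) / 3 ≤ V0.card := by
    rw [hV0, div_le_iff₀ (by norm_num)]
    have : n ≤ n / 2 * 3 := by omega
    exact_mod_cast this
  have hV1r : (n : ℝ) / 3 ≤ (V0ᶜ).card := by
    rw [hV1, div_le_iff₀ (by norm_num)]
    have : n ≤ (n - n / 2) * 3 := by omega
    exact_mod_cast this
  have hprod : (n : ℝ) ^ 2 / 9 ≤ (V0.card : ℝ) * (V0ᶜ).card := by
    calc (n : ℝ) ^ 2 / 9 = (n : ℝ) / 3 * ((n : ℝ) / 3) := by ring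
      _ ≤ _ := by gcongr
  set P : ℝ := 1 / ((q : ℝ) + 1) with hP
  have hP0 : 0 < P := by positivity
  have hP1 : P ≤ 1 / 2 := by
    have h1 : (1 : ℝ) ≤ q := by exact_mod_cast hq
    exact one_div_le_one_div_of_le (by norm_num) (by linarith)
  have hP2 : 0 < 1 - P ^ 2 := by nlinarith
  have hρ : Real.exp (-(a * L)) ≤ (1 - P ^ 2) ^ L := by
    have h1 : Real.exp (-a) ≤ 1 - P ^ 2 := by
      have h2 := Real.one_sub_inv_le_log_of_pos hP2
      have h3 : 1 - (1 - P ^ 2)⁻¹ = -a := by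
        rw [hadef]
        field_simp
        ring
      rw [h3] at h2
      calc Real.exp (-a) ≤ Real.exp (Real.log (1 - P ^ 2)) := Real.exp_le_exp.2 h2
        _ = _ := Real.exp_log hP2
    calc Real.exp (-(a * L)) = Real.exp (-a) ^ L := by rw [← Real.exp_nat_mul]; ring_nf
      _ ≤ _ := pow_le_pow_left₀ (Real.exp_pos _).le h1 _
  set u : ℝ := (1 - (1 - P) ^ s) * (1 - (1 - P) ^ t) with hu
  have hu1 : u ≤ 1 := by
    have h1 : 0 ≤ (1 - P) ^ s := pow_nonneg (by linarith) _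
    have h2 : 0 ≤ (1 - P) ^ t := pow_nonneg (by linarith) _
    have h3 : (1 - P) ^ s ≤ 1 := pow_le_one₀ (by linarith) (by linarith)
    have h4 : (1 - P) ^ t ≤ 1 := pow_le_one₀ (by linarith) (by linarith)
    nlinarith
  have hκ : (1 - u) ^ L ≤ Real.exp (-((v + a) * L)) := by
    have h1 : 1 - u ≤ Real.exp (-(v + a)) := by
      have := Real.add_one_le_exp (-(v + a))
      linarith
    calc (1 - u) ^ L ≤ Real.exp (-(v + a)) ^ L := pow_le_pow_left₀ (by linarith) h1 _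
      _ = _ := by rw [← Real.exp_nat_mul]; ring_nf
  have hexpv : (n : ℝ) ^ (s + t + 1) ≤ Real.exp (v * L) := by
    have h1 : ((s : ℝ) + t + 1) * Real.log n ≤ v * L := by
      calc ((s : ℝ) + t + 1) * Real.log n = v * (lam * Real.log n) := by
            rw [hlam]
            field_simp
        _ ≤ v * L := mul_le_mul_of_nonneg_left hL1 hv.le
    calc (n : ℝ) ^ (s + t + 1) = Real.exp (((s : ℝ) + t + 1) * Real.log n) := by
          have h2 : ((s : ℝ) + t + 1) = ((s + t + 1 : ℕ) : ℝ) := by push_cast; ring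
          rw [h2, mul_comm, ← Real.rpow_def_of_pos hn0, Real.rpow_natCast]
      _ ≤ _ := Real.exp_le_exp.2 h1
  have hcond : 2 * (n : ℝ) ^ 2 * (n : ℝ) ^ (s + t) * (1 - u) ^ L ≤
      ((V0.card : ℝ) * (V0ᶜ).card) * (1 - P ^ 2) ^ L / 2 := by
    have h1 : Real.exp (-((v + a) * L)) = Real.exp (-(a * L)) * Real.exp (-(v * L)) := by
      rw [← Real.exp_add]
      ring_nf
    have h2 : (n : ℝ) ^ (s + t) * Real.exp (-(v * L)) ≤ 1 / n := by
      rw [Real.exp_neg, ← div_eq_mul_inv, div_le_div_iff₀ (Real.exp_pos _) hn0, one_mul, ← pow_succ]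
      exact hexpv
    calc 2 * (n : ℝ) ^ 2 * (n : ℝ) ^ (s + t) * (1 - u) ^ L
        ≤ 2 * (n : ℝ) ^ 2 * (n : ℝ) ^ (s + t) * (Real.exp (-(a * L)) * Real.exp (-(v * L))) := by
          rw [← h1]
          gcongr
      _ = 2 * (n : ℝ) ^ 2 * Real.exp (-(a * L)) * ((n : ℝ) ^ (s + t) * Real.exp (-(v * L))) := by
          ring
      _ ≤ 2 * (n : ℝ) ^ 2 * Real.exp (-(a * L)) * (1 / n) := by gcongr
      _ ≤ 2 * (n : ℝ) ^ 2 * Real.exp (-(a * L)) * (1 / 36) := by
          have h3 : 1 / (n : ℝ) ≤ 1 / 36 := one_div_le_one_div_of_le (by norm_num) hn'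
          gcongr
      _ = (n : ℝ) ^ 2 / 9 * Real.exp (-(a * L)) / 2 := by ring
      _ ≤ _ := by gcongr
  obtain ⟨w, hw1, hw2, hw3⟩ := exists_family (n := n) (q := q) (L := L) (s := s) (t := t) V0 V0ᶜ
    (by omega) ht (by
      rw [hV0, hV1]
      have h1 : n / 2 < n := by omega
      have h2 : n - n / 2 ≤ n := by omega
      calc n / 2 * (n - n / 2) ≤ n / 2 * n := Nat.mul_le_mul_left _ h2
        _ < n * n := Nat.mul_lt_mul_of_pos_right h1 (by omega)
        _ = n ^ 2 := (sq n).symm) (by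
      rw [hV0, hV1]
      have h1 : 0 < n / 2 := by omega
      have h2 : 0 < n - n / 2 := by omega
      positivity) hq hcond
  refine ⟨bip V0 w, (Fin L × Bool) ⊕ Bool, inferInstance, rA V0 w, rB V0 w, ?_,
    bip_avoids V0 w, bip_nobiclique V0 w (by omega) ht hw2 hw3, ?_⟩
  · rw [Fintype.card_sum, Fintype.card_prod, Fintype.card_fin, Fintype.card_bool]
    push_cast
    linarith
  · refine le_trans ?_ (bip_edges V0 w)
    refine le_trans ?_ hw1
    have h1 : (n : ℝ) ^ 2 / 9 * Real.exp (-(a * L)) / 2 ≤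
        ((V0.card : ℝ) * (V0ᶜ).card) * (1 - P ^ 2) ^ L / 2 := by gcongr
    refine le_trans ?_ h1
    have h2 : Real.exp (-a) * (n : ℝ) ^ (-(1 / (s : ℝ) + ε / 2)) ≤ Real.exp (-(a * L)) := by
      rw [Real.rpow_def_of_pos hn0, ← Real.exp_add]
      refine Real.exp_le_exp.2 ?_
      have h3 : a * L ≤ a * (lam * Real.log n + 1) := mul_le_mul_of_nonneg_left hL2 ha.le
      have h4 : a * lam ≤ 1 / (s : ℝ) + ε / 2 := by
        rw [hlam, ← mul_div_assoc]
        exact hbound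
      have h5 := mul_le_mul_of_nonneg_right h4 (by linarith : 0 ≤ Real.log (n : ℝ))
      nlinarith
    have h3 : (n : ℝ) ^ (2 - 1 / (s : ℝ) - ε) * (18 * Real.exp a) ≤
        (n : ℝ) ^ 2 * (n : ℝ) ^ (-(1 / (s : ℝ) + ε / 2)) := by
      calc (n : ℝ) ^ (2 - 1 / (s : ℝ) - ε) * (18 * Real.exp a)
          ≤ (n : ℝ) ^ (2 - 1 / (s : ℝ) - ε) * (n : ℝ) ^ (ε / 2) := by gcongr
        _ = (n : ℝ) ^ 2 * (n : ℝ) ^ (-(1 / (s : ℝ) + ε / 2)) := by
            rw [← Real.rpow_add hn0, ← Real.rpow_natCast (n : ℝ) 2, ← Real.rpow_add hn0]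
            congr 1
            push_cast
            ring
    have h4 : (n : ℝ) ^ (2 - 1 / (s : ℝ) - ε) ≤
        (n : ℝ) ^ 2 * (n : ℝ) ^ (-(1 / (s : ℝ) + ε / 2)) / 18 * Real.exp (-a) := by
      rw [Real.exp_neg, ← div_eq_mul_inv, div_div, le_div_iff₀ (by positivity)]
      exact h3
    refine h4.trans ?_
    calc (n : ℝ) ^ 2 * (n : ℝ) ^ (-(1 / (s : ℝ) + ε / 2)) / 18 * Real.exp (-a)
        = (n : ℝ) ^ 2 / 9 * (Real.exp (-a) * (n : ℝ) ^ (-(1 / (s : ℝ) + ε / 2))) / 2 := by ring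
      _ ≤ (n : ℝ) ^ 2 / 9 * Real.exp (-(a * L)) / 2 := by gcongr

end Pool.Agent.V5helper69.BR
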