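import Pool.Agent.V5helper69.BR.Kst

/-!
# Counting small sets and twins
-/

set_option autoImplicit false

namespace Pool.Agent.V5helper69.BR

open Finset
open scoped Classical

/-- Few subsets of a set with `O(ℓ)` elements have at most `c ℓ` elements. -/
theorem cnt (C η : ℝ) (hC : 0 < C) (hη : 0 < η) : ∃ c : ℝ, 0 < c ∧ ∀ (ι : Type) (U : Finset ι)
    (ℓ : ℝ), 0 ≤ ℓ → (U.card : ℝ) ≤ C * ℓ → ∀ m : ℝ, m ≤ c * ℓ →
      (((U.powerset.filter fun v => (v.card : ℝ) ≤ m).card : ℕ) : ℝ) ≤ Real.exp (η * ℓ) := by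
  set lam : ℝ := min (1 / 2) (η / (2 * C)) with hlam
  have hl0 : 0 < lam := lt_min (by norm_num) (by positivity)
  have hl1 : lam ≤ 1 / 2 := min_le_left _ _
  have hl2 : lam * C ≤ η / 2 := by
    calc lam * C ≤ η / (2 * C) * C := mul_le_mul_of_nonneg_right (min_le_right _ _) hC.le
      _ = η / 2 := by field_simp
  have hlog : 0 < -Real.log lam := by
    have := Real.log_neg hl0 (by linarith)
    linarith
  refine ⟨η / (2 * (-Real.log lam)), by positivity, ?_⟩
  intro ι U ℓ hℓ hU m hm
  have h1 : ∑ v ∈ U.powerset, lam ^ v.card = (1 + lam) ^ U.card := by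
    have h := Finset.sum_pow_mul_eq_add_pow lam (1 : ℝ) U
    simp only [one_pow, mul_one] at h
    rw [h, add_comm]
  have h2 : (((U.powerset.filter fun v => (v.card : ℝ) ≤ m).card : ℕ) : ℝ) *
      Real.exp (m * Real.log lam) ≤ ∑ v ∈ U.powerset, lam ^ v.card := by
    calc (((U.powerset.filter fun v => (v.card : ℝ) ≤ m).card : ℕ) : ℝ) *
          Real.exp (m * Real.log lam)
        = ∑ _v ∈ U.powerset.filter fun v => (v.card : ℝ) ≤ m, Real.exp (m * Real.log lam) := by
          rw [sum_const, nsmul_eq_mul]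
      _ ≤ ∑ v ∈ U.powerset.filter fun v => (v.card : ℝ) ≤ m, lam ^ v.card := by
          refine sum_le_sum fun v hv => ?_
          rw [← Real.rpow_natCast, Real.rpow_def_of_pos hl0, mul_comm (Real.log lam)]
          refine Real.exp_le_exp.2 ?_
          have h3 := (mem_filter.1 hv).2
          nlinarith
      _ ≤ ∑ v ∈ U.powerset, lam ^ v.card :=
          sum_le_sum_of_subset_of_nonneg (filter_subset _ _) fun v _ _ => by positivity
  have h3 : (1 + lam) ^ U.card ≤ Real.exp (lam * U.card) := by
    have h4 : (1 + lam) ≤ Real.exp lam := by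
      have := Real.add_one_le_exp lam
      linarith
    calc (1 + lam) ^ U.card ≤ Real.exp lam ^ U.card := pow_le_pow_left₀ (by linarith) h4 _
      _ = Real.exp (lam * U.card) := by rw [← Real.exp_nat_mul]; ring_nf
  have h5 : (((U.powerset.filter fun v => (v.card : ℝ) ≤ m).card : ℕ) : ℝ) ≤
      Real.exp (lam * U.card) * Real.exp (m * (-Real.log lam)) := by
    have h6 : Real.exp (m * Real.log lam) * Real.exp (m * (-Real.log lam)) = 1 := by
      rw [← Real.exp_add]
      simp
    calc (((U.powerset.filter fun v => (v.card : ℝ) ≤ m).card : ℕ) : ℝ)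
        = (((U.powerset.filter fun v => (v.card : ℝ) ≤ m).card : ℕ) : ℝ) *
          Real.exp (m * Real.log lam) * Real.exp (m * (-Real.log lam)) := by
          rw [mul_assoc, h6, mul_one]
      _ ≤ Real.exp (lam * U.card) * Real.exp (m * (-Real.log lam)) := by
          refine mul_le_mul_of_nonneg_right ?_ (Real.exp_pos _).le
          rw [h1] at h2
          exact h2.trans h3
  refine h5.trans ?_
  rw [← Real.exp_add]
  refine Real.exp_le_exp.2 ?_
  have h7 : lam * U.card ≤ η / 2 * ℓ := by
    calc lam * U.card ≤ lam * (C * ℓ) := mul_le_mul_of_nonneg_left hU hl0.le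
      _ = lam * C * ℓ := by ring
      _ ≤ η / 2 * ℓ := mul_le_mul_of_nonneg_right hl2 hℓ
  have h8 : m * (-Real.log lam) ≤ η / 2 * ℓ := by
    calc m * (-Real.log lam) ≤ η / (2 * (-Real.log lam)) * ℓ * (-Real.log lam) :=
          mul_le_mul_of_nonneg_right hm hlog.le
      _ = η / 2 * ℓ := by
          have h9 : Real.log lam ≠ 0 := by intro h0; rw [h0] at hlog; simp at hlog
          field_simp
  linarith

/-- The sets `J x` and `J' y` have no common element in `U`. -/
def Dj {α β ι : Type} (U : Finset ι) (J : α → Finset ι) (J' : β → Finset ι) (x : α) (y : β) :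
    Prop := ∀ j ∈ U, j ∈ J x → j ∉ J' y

theorem dj_iff {α β ι : Type} (U : Finset ι) (J : α → Finset ι) (J' : β → Finset ι) (x : α)
    (y : β) : Dj U J J' x y ↔ U ∩ (J x ∩ J' y) = ∅ := by
  unfold Dj
  rw [Finset.eq_empty_iff_forall_notMem]
  constructor
  · intro h j hj
    rw [mem_inter, mem_inter] at hj
    exact h j hj.1 hj.2.1 hj.2.2
  · intro h j hj h1 h2
    exact h j (mem_inter.2 ⟨hj, mem_inter.2 ⟨h1, h2⟩⟩)

/-- Twins: less than `t` elements of degree at least `s` of `B` have a given trace. -/
theorem twins {α β ι : Type} (U : Finset ι) (J : α → Finset ι) (J' : β → Finset ι)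
    (A : Finset α) (B : Finset β) (s t : ℕ) (h : KF (Dj U J J') A B s t)
    (hd : ∀ y ∈ B, s ≤ (A.filter fun x => Dj U J J' x y).card) (p : Finset ι) :
    (B.filter fun y => U ∩ J' y = p).card ≤ t := by
  by_contra hcon
  push Not at hcon
  obtain ⟨T, hT, hc⟩ := exists_subset_card_eq hcon.le
  have hne : (B.filter fun y => U ∩ J' y = p).Nonempty := by
    rw [← card_pos]; omega
  obtain ⟨y0, hy0⟩ := hne
  rw [mem_filter] at hy0
  obtain ⟨S, hS, hsc⟩ := exists_subset_card_eq (hd y0 hy0.1)
  obtain ⟨x, hx, y, hy, hn⟩ := h S (hS.trans (filter_subset _ _)) hsc T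
    (hT.trans (filter_subset _ _)) hc
  apply hn
  have h1 := (mem_filter.1 (hS hx)).2
  have h2 := (mem_filter.1 (hT hy)).2
  intro j hj hjx hjy
  have h3 : j ∈ U ∩ J' y := mem_inter.2 ⟨hj, hjy⟩
  rw [h2, ← hy0.2] at h3
  exact h1 j hj hjx (mem_inter.1 h3).2

/-- The base case: few traces. -/
theorem base {α β ι : Type} (U : Finset ι) (J : α → Finset ι) (J' : β → Finset ι)
    (A : Finset α) (B : Finset β) (s t : ℕ) (h : KF (Dj U J J') A B s t) :
    ed (Dj U J J') A B ≤ t * A.card + s * 2 ^ U.card * B.card := by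
  have h1 : ∀ p ∈ U.powerset, ∑ x ∈ A.filter (fun x => U ∩ J x = p),
      ((B.filter fun y => Dj U J J' x y).card : ℝ) ≤
      t * (A.filter (fun x => U ∩ J x = p)).card + s * B.card := by
    intro p _
    set Ap := A.filter (fun x => U ∩ J x = p) with hAp
    have hsame : ∀ x ∈ Ap, (B.filter fun y => Dj U J J' x y) = B.filter fun y => p ∩ J' y = ∅ := by
      intro x hx
      have hx2 := (mem_filter.1 hx).2
      ext y
      rw [mem_filter, mem_filter, dj_iff, ← hx2, inter_assoc]
    rw [sum_congr rfl fun x hx => by rw [hsame x hx], sum_const, nsmul_eq_mul]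
    set N := B.filter fun y => p ∩ J' y = ∅ with hN
    rcases lt_or_ge Ap.card s with hlt | hge
    · have h2 : (Ap.card : ℝ) * N.card ≤ s * B.card := by
        have h3 : N.card ≤ B.card := card_filter_le _ _
        exact_mod_cast Nat.mul_le_mul hlt.le h3
      have : (0 : ℝ) ≤ t * Ap.card := by positivity
      linarith
    · have h2 : N.card ≤ t := by
        by_contra hcon
        push Not at hcon
        obtain ⟨S, hS, hsc⟩ := exists_subset_card_eq hge
        obtain ⟨T, hT, hc⟩ := exists_subset_card_eq hcon.le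
        obtain ⟨x, hx, y, hy, hn⟩ := h S (hS.trans (filter_subset _ _)) hsc T
          (hT.trans (filter_subset _ _)) hc
        apply hn
        have h4 := hsame x (hS hx)
        have h5 := hT hy
        rw [← h4] at h5
        exact (mem_filter.1 h5).2
      have h3 : (Ap.card : ℝ) * N.card ≤ t * Ap.card := by
        rw [mul_comm (t : ℝ)]
        exact_mod_cast Nat.mul_le_mul_left _ h2
      have : (0 : ℝ) ≤ s * B.card := by positivity
      linarith
  calc ed (Dj U J J') A B = ∑ x ∈ A, ((B.filter fun y => Dj U J J' x y).card : ℝ) := ed_row _ _ _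
    _ = ∑ p ∈ U.powerset, ∑ x ∈ A.filter (fun x => U ∩ J x = p),
        ((B.filter fun y => Dj U J J' x y).card : ℝ) :=
        (sum_fiberwise_of_maps_to (fun x _ => mem_powerset.2 inter_subset_left) _).symm
    _ ≤ ∑ p ∈ U.powerset, (t * ((A.filter (fun x => U ∩ J x = p)).card : ℝ) + s * B.card) :=
        sum_le_sum h1
    _ = t * A.card + s * 2 ^ U.card * B.card := by
        rw [sum_add_distrib, ← mul_sum, sum_const, card_powerset, nsmul_eq_mul]
        have h2 : ∑ p ∈ U.powerset, ((A.filter (fun x => U ∩ J x = p)).card : ℝ) = A.card := by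
          rw [← Nat.cast_sum]
          congr 1
          exact (card_eq_sum_card_fiberwise fun x _ => mem_powerset.2 inter_subset_left).symm
        rw [h2]
        push_cast
        ring

end Pool.Agent.V5helper69.BR
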