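import Mathlib

/-!
# The theorem of Kővári, Sós and Turán for relations between two finite sets
-/

set_option autoImplicit false

namespace Pool.Agent.V5helper69.BR

open Finset
open scoped Classical

/-- the number of the pairs of `A × B` in the relation `R` -/
noncomputable def ed {α β : Type} (R : α → β → Prop) (A : Finset α) (B : Finset β) : ℝ :=
  ∑ x ∈ A, ∑ y ∈ B, if R x y then (1 : ℝ) else 0

/-- no `s` elements of `A` are related to `t` common elements of `B` -/
def KF {α β : Type} (R : α → β → Prop) (A : Finset α) (B : Finset β) (s t : ℕ) : Prop :=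
  ∀ S ⊆ A, S.card = s → ∀ T ⊆ B, T.card = t → ∃ x ∈ S, ∃ y ∈ T, ¬ R x y

theorem KF.mono {α β : Type} {R : α → β → Prop} {A A' : Finset α} {B B' : Finset β} {s t : ℕ}
    (h : KF R A B s t) (hA : A' ⊆ A) (hB : B' ⊆ B) : KF R A' B' s t :=
  fun S hS hs T hT ht => h S (hS.trans hA) hs T (hT.trans hB) ht

theorem ed_nonneg {α β : Type} (R : α → β → Prop) (A : Finset α) (B : Finset β) :
    0 ≤ ed R A B := by
  unfold ed
  exact sum_nonneg fun x _ => sum_nonneg fun y _ => by split_ifs <;> norm_num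

theorem ed_comm {α β : Type} (R : α → β → Prop) (A : Finset α) (B : Finset β) :
    ed R A B = ∑ y ∈ B, ((A.filter fun x => R x y).card : ℝ) := by
  unfold ed
  rw [sum_comm]
  refine sum_congr rfl fun y _ => ?_
  rw [card_filter]
  push_cast
  rfl

theorem ed_row {α β : Type} (R : α → β → Prop) (A : Finset α) (B : Finset β) :
    ed R A B = ∑ x ∈ A, ((B.filter fun y => R x y).card : ℝ) := by
  unfold ed
  refine sum_congr rfl fun x _ => ?_
  rw [card_filter]
  push_cast
  rfl

theorem ed_le_card {α β : Type} (R : α → β → Prop) (A : Finset α) (B : Finset β) :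
    ed R A B ≤ A.card * B.card := by
  rw [ed_row]
  calc ∑ x ∈ A, ((B.filter fun y => R x y).card : ℝ) ≤ ∑ _x ∈ A, (B.card : ℝ) :=
        sum_le_sum fun x _ => by exact_mod_cast card_filter_le _ _
    _ = _ := by rw [sum_const, nsmul_eq_mul]

/-- Counting stars. -/
theorem stars {α β : Type} {R : α → β → Prop} {A : Finset α} {B : Finset β} {s t : ℕ}
    (h : KF R A B s t) :
    ∑ y ∈ B, (A.filter fun x => R x y).card.choose s ≤ t * A.card.choose s := by
  have h1 : ∀ y ∈ B, (A.filter fun x => R x y).card.choose s =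
      ((A.powersetCard s).filter fun S => ∀ x ∈ S, R x y).card := by
    intro y _
    rw [← card_powersetCard]
    congr 1
    ext S
    simp only [mem_powersetCard, mem_filter]
    constructor
    · rintro ⟨h2, h3⟩
      exact ⟨⟨fun x hx => (mem_filter.1 (h2 hx)).1, h3⟩, fun x hx => (mem_filter.1 (h2 hx)).2⟩
    · rintro ⟨⟨h2, h3⟩, h4⟩
      exact ⟨fun x hx => mem_filter.2 ⟨h2 hx, h4 x hx⟩, h3⟩
  rw [sum_congr rfl h1]
  have h2 : ∑ y ∈ B, ((A.powersetCard s).filter fun S => ∀ x ∈ S, R x y).card =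
      ∑ S ∈ A.powersetCard s, (B.filter fun y => ∀ x ∈ S, R x y).card := by
    simp only [card_filter]
    rw [sum_comm]
  rw [h2]
  calc ∑ S ∈ A.powersetCard s, (B.filter fun y => ∀ x ∈ S, R x y).card
      ≤ ∑ _S ∈ A.powersetCard s, t := by
        refine sum_le_sum fun S hS => ?_
        rw [mem_powersetCard] at hS
        by_contra hcon
        push Not at hcon
        obtain ⟨T, hT, hc⟩ := exists_subset_card_eq hcon.le
        obtain ⟨x, hx, y, hy, hn⟩ := h S hS.1 hS.2 T (hT.trans (filter_subset _ _)) hc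
        exact hn ((mem_filter.1 (hT hy)).2 x hx)
    _ = t * A.card.choose s := by
        rw [sum_const, card_powersetCard, smul_eq_mul, mul_comm]

/-- The theorem of Kővári, Sós and Turán. -/
theorem kst {α β : Type} {R : α → β → Prop} {A : Finset α} {B : Finset β} {s t : ℕ}
    (hs : 1 ≤ s) (h : KF R A B s t) :
    ed R A B ≤ t * A.card * (B.card : ℝ) ^ (1 - 1 / (s : ℝ)) + s * B.card := by
  set d : β → ℕ := fun y => (A.filter fun x => R x y).card with hd
  set z : β → ℝ := fun y => ((d y - s : ℕ) : ℝ) with hz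
  have hz0 : ∀ y, 0 ≤ z y := fun y => Nat.cast_nonneg _
  have h1 : ed R A B ≤ ∑ y ∈ B, z y + s * B.card := by
    rw [ed_comm]
    calc ∑ y ∈ B, ((A.filter fun x => R x y).card : ℝ) ≤ ∑ y ∈ B, (z y + s) := by
          refine sum_le_sum fun y _ => ?_
          simp only [hz, hd]
          have : (A.filter fun x => R x y).card ≤ ((A.filter fun x => R x y).card - s) + s := by
            omega
          exact_mod_cast this
      _ = _ := by rw [sum_add_distrib, sum_const, nsmul_eq_mul]; ring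
  refine h1.trans (add_le_add ?_ le_rfl)
  rcases B.eq_empty_or_nonempty with hB | hB
  · subst hB
    rw [sum_empty]
    positivity
  have hBp : (0 : ℝ) < B.card := by exact_mod_cast hB.card_pos
  obtain ⟨n, rfl⟩ : ∃ n, s = n + 1 := ⟨s - 1, by omega⟩
  have h2 : ∑ y ∈ B, z y ^ (n + 1) ≤ t * (A.card : ℝ) ^ (n + 1) := by
    have h3 : ∀ y ∈ B, (d y - (n + 1)) ^ (n + 1) ≤ (n + 1).factorial * (d y).choose (n + 1) := by
      intro y _
      rw [← Nat.descFactorial_eq_factorial_mul_choose]
      refine le_trans ?_ (Nat.pow_sub_le_descFactorial _ _)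
      exact Nat.pow_le_pow_left (by omega) _
    have h4 : ∑ y ∈ B, (d y - (n + 1)) ^ (n + 1) ≤ t * A.card ^ (n + 1) := by
      calc ∑ y ∈ B, (d y - (n + 1)) ^ (n + 1)
          ≤ ∑ y ∈ B, (n + 1).factorial * (d y).choose (n + 1) := sum_le_sum h3
        _ = (n + 1).factorial * ∑ y ∈ B, (d y).choose (n + 1) := by rw [mul_sum]
        _ ≤ (n + 1).factorial * (t * A.card.choose (n + 1)) :=
            Nat.mul_le_mul_left _ (stars h)
        _ = t * A.card.descFactorial (n + 1) := by
            rw [Nat.descFactorial_eq_factorial_mul_choose]; ring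
        _ ≤ t * A.card ^ (n + 1) := Nat.mul_le_mul_left _ (Nat.descFactorial_le_pow _ _)
    simp only [hz]
    exact_mod_cast h4
  have h5 : (∑ y ∈ B, z y) ^ (n + 1) ≤ (B.card : ℝ) ^ n * ∑ y ∈ B, z y ^ (n + 1) :=
    pow_sum_le_card_mul_sum_pow (fun y _ => hz0 y) n
  have h6 : ((B.card : ℝ) ^ (1 - 1 / ((n + 1 : ℕ) : ℝ))) ^ (n + 1) = (B.card : ℝ) ^ n := by
    rw [← Real.rpow_natCast ((B.card : ℝ) ^ (1 - 1 / ((n + 1 : ℕ) : ℝ))), ← Real.rpow_mul hBp.le,
      ← Real.rpow_natCast (B.card : ℝ) n]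
    congr 1
    push_cast
    field_simp
    ring
  have h7 : (t : ℝ) ≤ (t : ℝ) ^ (n + 1) := by
    exact_mod_cast Nat.le_self_pow (by omega) t
  refine le_of_pow_le_pow_left₀ (n := n + 1) (by omega) (by positivity) ?_
  calc (∑ y ∈ B, z y) ^ (n + 1) ≤ (B.card : ℝ) ^ n * ∑ y ∈ B, z y ^ (n + 1) := h5
    _ ≤ (B.card : ℝ) ^ n * (t * (A.card : ℝ) ^ (n + 1)) :=
        mul_le_mul_of_nonneg_left h2 (by positivity)
    _ ≤ (B.card : ℝ) ^ n * ((t : ℝ) ^ (n + 1) * (A.card : ℝ) ^ (n + 1)) := by gcongr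
    _ = _ := by rw [mul_pow, mul_pow, h6]; ring

end Pool.Agent.V5helper69.BR
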