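import Pool.Agent.V5helper69.BR.Step

/-!
# Relations without `K_{s,t}` whose complement has Boolean rank `O(log n)`
-/

set_option autoImplicit false

namespace Pool.Agent.V5helper69.BR

open Finset
open scoped Classical

/-- The main statement for Boolean rank at most `C ℓ`. -/
def PS (s : ℕ) (C : ℝ) : Prop := ∃ δ : ℝ, 0 < δ ∧ ∀ t : ℕ, ∃ K : ℝ, 0 < K ∧
  ∀ (α β ι : Type) (U : Finset ι) (J : α → Finset ι) (J' : β → Finset ι) (A : Finset α)
    (B : Finset β) (ℓ : ℝ), 0 ≤ ℓ → (A.card : ℝ) ≤ Real.exp ℓ → (B.card : ℝ) ≤ Real.exp ℓ →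
    (U.card : ℝ) ≤ C * ℓ → KF (Dj U J J') A B s t →
    ed (Dj U J J') A B ≤ K * Real.exp ((2 - 1 / (s : ℝ) - δ) * ℓ)

theorem inv_le_half {s : ℕ} (hs : 2 ≤ s) : 0 < 1 / (s : ℝ) ∧ 1 / (s : ℝ) ≤ 1 / 2 := by
  have h1 : (2 : ℝ) ≤ s := by exact_mod_cast hs
  constructor
  · positivity
  · exact one_div_le_one_div_of_le (by norm_num) h1

theorem PS_base {s : ℕ} (hs : 2 ≤ s) : PS s (1 / 4) := by
  obtain ⟨hi0, hi1⟩ := inv_le_half hs
  refine ⟨1 / 4, by norm_num, fun t => ⟨t + s, by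
    have : (2 : ℝ) ≤ s := by exact_mod_cast hs
    positivity, ?_⟩⟩
  intro α β ι U J J' A B ℓ hℓ hA hB hU h
  have h1 := base U J J' A B s t h
  have h2 : (2 : ℝ) ^ U.card ≤ Real.exp (ℓ / 4) := by
    have h3 : (2 : ℝ) ≤ Real.exp 1 := by
      have := Real.add_one_le_exp (1 : ℝ)
      linarith
    calc (2 : ℝ) ^ U.card ≤ Real.exp 1 ^ U.card := pow_le_pow_left₀ (by norm_num) h3 _
      _ = Real.exp (U.card * 1) := by rw [← Real.exp_nat_mul]
      _ ≤ Real.exp (ℓ / 4) := Real.exp_le_exp.2 (by linarith)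
  have h4 : Real.exp ℓ ≤ Real.exp ((2 - 1 / (s : ℝ) - 1 / 4) * ℓ) := by
    refine Real.exp_le_exp.2 ?_
    nlinarith
  have h5 : Real.exp (ℓ / 4) * Real.exp ℓ ≤ Real.exp ((2 - 1 / (s : ℝ) - 1 / 4) * ℓ) := by
    rw [← Real.exp_add]
    refine Real.exp_le_exp.2 ?_
    nlinarith
  calc ed (Dj U J J') A B ≤ t * A.card + s * 2 ^ U.card * B.card := h1
    _ ≤ t * Real.exp ℓ + s * Real.exp (ℓ / 4) * Real.exp ℓ := by gcongr
    _ = t * Real.exp ℓ + s * (Real.exp (ℓ / 4) * Real.exp ℓ) := by ring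
    _ ≤ t * Real.exp ((2 - 1 / (s : ℝ) - 1 / 4) * ℓ) +
        s * Real.exp ((2 - 1 / (s : ℝ) - 1 / 4) * ℓ) := by gcongr
    _ = (t + s) * Real.exp ((2 - 1 / (s : ℝ) - 1 / 4) * ℓ) := by ring

theorem PS_mono {s : ℕ} {C C' : ℝ} (h : C ≤ C') (hP : PS s C') : PS s C := by
  obtain ⟨δ, hδ, h1⟩ := hP
  refine ⟨δ, hδ, fun t => ?_⟩
  obtain ⟨K, hK, h2⟩ := h1 t
  refine ⟨K, hK, ?_⟩
  intro α β ι U J J' A B ℓ hℓ hA hB hU hf
  exact h2 α β ι U J J' A B ℓ hℓ hA hB (hU.trans (mul_le_mul_of_nonneg_right h hℓ)) hf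

theorem PS_step {s : ℕ} (hs : 2 ≤ s) (Cm : ℝ) (hCm : 0 < Cm) : ∃ c : ℝ, 0 < c ∧
    ∀ C1 C2 : ℝ, 0 ≤ C1 → C2 ≤ C1 + c → C2 ≤ Cm → PS s C1 → PS s C2 := by
  obtain ⟨hi0, hi1⟩ := inv_le_half hs
  obtain ⟨c, hc, hcnt⟩ := cnt Cm (1 / 4) hCm (by norm_num)
  refine ⟨c, hc, ?_⟩
  intro C1 C2 hC10 hC12 hC1 hP
  obtain ⟨δ1, hδ1, hP⟩ := hP
  obtain ⟨c2, hc2, hcnt2⟩ := cnt Cm (δ1 / 4) hCm (by positivity)
  set δ : ℝ := min (δ1 / 40) (min (1 / 100) (c2 / (48 * Cm))) with hδdef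
  have hδ : 0 < δ := lt_min (by positivity) (lt_min (by norm_num) (by positivity))
  have hδa : δ ≤ δ1 / 40 := min_le_left _ _
  have hδb : δ ≤ 1 / 100 := (min_le_right _ _).trans (min_le_left _ _)
  have hδc : 48 * Cm * δ ≤ c2 := by
    have h1 : δ ≤ c2 / (48 * Cm) := (min_le_right _ _).trans (min_le_right _ _)
    calc 48 * Cm * δ ≤ 48 * Cm * (c2 / (48 * Cm)) := mul_le_mul_of_nonneg_left h1 (by positivity)
      _ = c2 := by field_simp
  refine ⟨δ, hδ, fun t => ?_⟩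
  obtain ⟨K1, hK1, hP⟩ := hP t
  set X : ℝ := 8 * (t + s + K1 + 1) with hX
  have hXp : 0 < X := by positivity
  have ht0 : (0 : ℝ) ≤ t := Nat.cast_nonneg _
  have hs0 : (2 : ℝ) ≤ s := by exact_mod_cast hs
  set ℓ0 : ℝ := max 8 (Real.log X / δ) with hℓ0
  refine ⟨max 2 (Real.exp (2 * ℓ0)), by positivity, ?_⟩
  intro α β ι U J J' A B ℓ hℓ hA hB hU h
  have hexp0 : 0 ≤ 2 - 1 / (s : ℝ) - δ := by linarith
  rcases lt_or_ge ℓ ℓ0 with hlt | hge
  · have h1 : (1 : ℝ) ≤ Real.exp ((2 - 1 / (s : ℝ) - δ) * ℓ) :=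
      Real.one_le_exp (mul_nonneg hexp0 hℓ)
    calc ed (Dj U J J') A B ≤ A.card * B.card := ed_le_card _ _ _
      _ ≤ Real.exp ℓ * Real.exp ℓ := by gcongr
      _ = Real.exp (2 * ℓ) := by rw [← Real.exp_add]; ring_nf
      _ ≤ Real.exp (2 * ℓ0) := Real.exp_le_exp.2 (by linarith)
      _ ≤ max 2 (Real.exp (2 * ℓ0)) * 1 := by rw [mul_one]; exact le_max_right _ _
      _ ≤ _ := mul_le_mul_of_nonneg_left h1 (by positivity)
  have hℓ8 : 8 ≤ ℓ := (le_max_left _ _).trans hge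
  have hXe : X ≤ Real.exp (δ * ℓ) := by
    have h1 : Real.log X / δ ≤ ℓ := (le_max_right _ _).trans hge
    rw [div_le_iff₀ hδ] at h1
    calc X = Real.exp (Real.log X) := (Real.exp_log hXp).symm
      _ ≤ Real.exp (δ * ℓ) := Real.exp_le_exp.2 (by linarith)
  have big : ∀ a : ℝ, δ ≤ a → X ≤ Real.exp (a * ℓ) := fun a ha =>
    hXe.trans (Real.exp_le_exp.2 (mul_le_mul_of_nonneg_right ha hℓ))
  by_contra hcon
  push Not at hcon
  set W : ℝ := Real.exp ((2 - 1 / (s : ℝ) - δ) * ℓ) with hW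
  have hWp : 0 < W := Real.exp_pos _
  have hcon2 : 2 * W < ed (Dj U J J') A B :=
    lt_of_le_of_lt (mul_le_mul_of_nonneg_right (le_max_left _ _) hWp.le) hcon
  -- the elements of degree at least `s`
  set Bp := B.filter (fun y => s ≤ (A.filter fun x => Dj U J J' x y).card) with hBp
  have hBpB : Bp ⊆ B := filter_subset _ _
  have hKF : KF (Dj U J J') A Bp s t := h.mono (Subset.refl _) hBpB
  have hBpc : (Bp.card : ℝ) ≤ Real.exp ℓ :=
    le_trans (by exact_mod_cast card_le_card hBpB) hB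
  have hdeg : ∀ y ∈ Bp, s ≤ (A.filter fun x => Dj U J J' x y).card := fun y hy =>
    (mem_filter.1 hy).2
  -- the exponents
  have hs5 : s * Real.exp (5 / 4 * ℓ) ≤ W / 4 := by
    have h1 := big (2 - 1 / (s : ℝ) - δ - 5 / 4) (by linarith)
    have h2 : W = Real.exp ((2 - 1 / (s : ℝ) - δ - 5 / 4) * ℓ) * Real.exp (5 / 4 * ℓ) := by
      rw [hW, ← Real.exp_add]
      congr 1
      ring
    rw [h2]
    have h3 : 4 * (s : ℝ) ≤ X := by rw [hX]; linarith
    have h4 := mul_le_mul_of_nonneg_right (h3.trans h1) (Real.exp_pos (5 / 4 * ℓ)).le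
    linarith
  have hsl : s * Real.exp ℓ ≤ W / 4 := by
    refine le_trans ?_ hs5
    refine mul_le_mul_of_nonneg_left (Real.exp_le_exp.2 (by linarith)) (by positivity)
  set e := ed (Dj U J J') A Bp with he
  have heW : W < e := by
    have h1 : ed (Dj U J J') A B ≤ e + s * B.card := by
      rw [he, ed_comm, ed_comm, ← sum_filter_add_sum_filter_not B
        (fun y => s ≤ (A.filter fun x => Dj U J J' x y).card)]
      refine add_le_add (le_of_eq rfl) ?_
      calc ∑ y ∈ B.filter (fun y => ¬ s ≤ (A.filter fun x => Dj U J J' x y).card),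
            ((A.filter fun x => Dj U J J' x y).card : ℝ)
          ≤ ∑ _y ∈ B.filter (fun y => ¬ s ≤ (A.filter fun x => Dj U J J' x y).card),
            (s : ℝ) := by
            refine sum_le_sum fun y hy => ?_
            have h2 := (mem_filter.1 hy).2
            push Not at h2
            exact_mod_cast h2.le
        _ = ((B.filter (fun y => ¬ s ≤ (A.filter fun x => Dj U J J' x y).card)).card : ℝ) * s := by
            rw [sum_const, nsmul_eq_mul]
        _ ≤ B.card * s := mul_le_mul_of_nonneg_right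
            (by exact_mod_cast card_filter_le _ _) (by positivity)
        _ = s * B.card := mul_comm _ _
    have h2 : s * (B.card : ℝ) ≤ W / 4 := by
      refine le_trans ?_ hsl
      gcongr
    linarith
  have he0 : 0 < e := hWp.trans heW
  -- the case without points
  rcases U.eq_empty_or_nonempty with hUe | hUne
  · have h1 := hP α β ι U J J' A Bp ℓ hℓ hA hBpc (by
      rw [hUe, card_empty, Nat.cast_zero]
      exact mul_nonneg hC10 hℓ) hKF
    have h2 := big (δ1 - δ) (by linarith)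
    have h3 : W = Real.exp ((δ1 - δ) * ℓ) * Real.exp ((2 - 1 / (s : ℝ) - δ1) * ℓ) := by
      rw [hW, ← Real.exp_add]
      congr 1
      ring
    have h4 : K1 * Real.exp ((2 - 1 / (s : ℝ) - δ1) * ℓ) ≤ W := by
      rw [h3]
      refine mul_le_mul_of_nonneg_right (le_trans ?_ h2) (Real.exp_pos _).le
      rw [hX]
      linarith
    linarith
  have hUp : (0 : ℝ) < U.card := by exact_mod_cast hUne.card_pos
  have hU' : (U.card : ℝ) ≤ Cm * ℓ := hU.trans (mul_le_mul_of_nonneg_right hC1 hℓ)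
  set M : ℝ := Real.exp ((1 - 4 * δ) * ℓ) with hM
  have hMp : 0 < M := Real.exp_pos _
  set r : ℕ := ⌊ℓ / 4⌋₊ with hr
  have hr1 : (r : ℝ) ≤ ℓ / 4 := Nat.floor_le (by linarith)
  have hr2 : ℓ / 8 ≤ (r : ℝ) := by
    have := Nat.lt_floor_add_one (ℓ / 4)
    rw [← hr] at this
    linarith
  set k : ℝ := 48 * Cm * δ * ℓ with hk
  have hk0 : 0 ≤ k := by positivity
  -- the two conditions
  have c1 : t * A.card * M ^ (1 - 1 / (s : ℝ)) + s * 2 ^ r * Bp.card ≤ e / 2 := by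
    have h1 : M ^ (1 - 1 / (s : ℝ)) = Real.exp ((1 - 4 * δ) * ℓ * (1 - 1 / (s : ℝ))) := by
      rw [hM, ← Real.exp_mul]
    have h2 : Real.exp ℓ * Real.exp ((1 - 4 * δ) * ℓ * (1 - 1 / (s : ℝ))) ≤
        Real.exp ((2 - 1 / (s : ℝ) - 2 * δ) * ℓ) := by
      rw [← Real.exp_add]
      refine Real.exp_le_exp.2 ?_
      have h3 : 0 ≤ δ * ℓ * (1 / 2 - 1 / (s : ℝ)) := by
        refine mul_nonneg (by positivity) (by linarith)
      nlinarith
    have h3 : W = Real.exp (δ * ℓ) * Real.exp ((2 - 1 / (s : ℝ) - 2 * δ) * ℓ) := by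
      rw [hW, ← Real.exp_add]
      congr 1
      ring
    have h4 : t * Real.exp ((2 - 1 / (s : ℝ) - 2 * δ) * ℓ) ≤ W / 4 := by
      rw [h3]
      have h5 : 4 * (t : ℝ) ≤ X := by rw [hX]; linarith
      have h6 := mul_le_mul_of_nonneg_right (h5.trans hXe)
        (Real.exp_pos ((2 - 1 / (s : ℝ) - 2 * δ) * ℓ)).le
      linarith
    have h5 : t * A.card * M ^ (1 - 1 / (s : ℝ)) ≤ W / 4 := by
      refine le_trans ?_ h4
      rw [h1]
      calc (t : ℝ) * A.card * Real.exp ((1 - 4 * δ) * ℓ * (1 - 1 / (s : ℝ)))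
          ≤ t * Real.exp ℓ * Real.exp ((1 - 4 * δ) * ℓ * (1 - 1 / (s : ℝ))) := by gcongr
        _ = t * (Real.exp ℓ * Real.exp ((1 - 4 * δ) * ℓ * (1 - 1 / (s : ℝ)))) := by ring
        _ ≤ _ := mul_le_mul_of_nonneg_left h2 ht0
    have h6 : (2 : ℝ) ^ r ≤ Real.exp (ℓ / 4) := by
      have h7 : (2 : ℝ) ≤ Real.exp 1 := by
        have := Real.add_one_le_exp (1 : ℝ)
        linarith
      calc (2 : ℝ) ^ r ≤ Real.exp 1 ^ r := pow_le_pow_left₀ (by norm_num) h7 _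
        _ = Real.exp (r * 1) := by rw [← Real.exp_nat_mul]
        _ ≤ Real.exp (ℓ / 4) := Real.exp_le_exp.2 (by linarith)
    have h8 : s * 2 ^ r * (Bp.card : ℝ) ≤ W / 4 := by
      refine le_trans ?_ hs5
      calc (s : ℝ) * 2 ^ r * Bp.card ≤ s * Real.exp (ℓ / 4) * Real.exp ℓ := by gcongr
        _ = s * Real.exp (5 / 4 * ℓ) := by
            rw [mul_assoc, ← Real.exp_add]
            congr 2
            ring
    linarith
  have c2' : Bp.card * Real.exp (-(r * k / U.card)) ≤ M / 4 := by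
    have h1 : 6 * δ * ℓ ≤ r * k / U.card := by
      rw [le_div_iff₀ hUp]
      calc 6 * δ * ℓ * U.card ≤ 6 * δ * ℓ * (Cm * ℓ) := by gcongr
        _ = (ℓ / 8) * k := by rw [hk]; ring
        _ ≤ r * k := mul_le_mul_of_nonneg_right hr2 hk0
    have h2 : Real.exp (-(r * k / U.card)) ≤ Real.exp (-(6 * δ * ℓ)) :=
      Real.exp_le_exp.2 (by linarith)
    have h3 := big (2 * δ) (by linarith)
    have h4 : M = Real.exp (2 * δ * ℓ) * (Real.exp ℓ * Real.exp (-(6 * δ * ℓ))) := by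
      rw [hM, ← Real.exp_add, ← Real.exp_add]
      congr 1
      ring
    have h5 : (4 : ℝ) ≤ X := by rw [hX]; linarith
    have h6 : (Bp.card : ℝ) * Real.exp (-(r * k / U.card)) ≤
        Real.exp ℓ * Real.exp (-(6 * δ * ℓ)) := by gcongr
    have h7 : 0 < Real.exp ℓ * Real.exp (-(6 * δ * ℓ)) := by positivity
    rw [h4]
    have h8 := mul_le_mul_of_nonneg_right (h5.trans h3) h7.le
    linarith
  have ht := tiny U J J' A Bp s t (by omega) hKF r M k hMp.le hUne c1 c2'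
  -- the elimination
  have hsm : t * Real.exp (1 / 4 * ℓ) ≤ M / 8 := by
    have h1 := big (3 / 4 - 4 * δ) (by linarith)
    have h2 : M = Real.exp ((3 / 4 - 4 * δ) * ℓ) * Real.exp (1 / 4 * ℓ) := by
      rw [hM, ← Real.exp_add]
      congr 1
      ring
    rw [h2]
    have h3 : 8 * (t : ℝ) ≤ X := by rw [hX]; linarith
    have h4 := mul_le_mul_of_nonneg_right (h3.trans h1) (Real.exp_pos (1 / 4 * ℓ)).le
    linarith
  have hP1 := hcnt ι U ℓ hℓ hU' (c * ℓ) le_rfl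
  have hP2 := hcnt2 ι U ℓ hℓ hU' k (by
    rw [hk]
    exact mul_le_mul_of_nonneg_right hδc hℓ)
  obtain ⟨U2, A2, B2, hU2, hA2, hB2, hKF2, hfin⟩ := step U J J' A Bp s t hKF hdeg M k (c * ℓ)
    (Real.exp (1 / 4 * ℓ)) (Real.exp (δ1 / 4 * ℓ)) he0 hMp hP1 hP2 hsm ht
  have h1 := hP α β ι U2 J J' A2 B2 ℓ hℓ
    (le_trans (by exact_mod_cast card_le_card hA2) hA)
    (le_trans (by exact_mod_cast card_le_card hB2) hBpc) (by
      have h2 := mul_le_mul_of_nonneg_right hC12 hℓ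
      rw [add_mul] at h2
      linarith) hKF2
  have hBpp : (0 : ℝ) < Bp.card := by
    by_contra h0
    have h2 : (Bp.card : ℝ) = 0 := le_antisymm (not_lt.1 h0) (Nat.cast_nonneg _)
    have h3 := ed_le_card (Dj U J J') A Bp
    rw [h2, mul_zero] at h3
    linarith
  have h2 : W * M / (8 * Real.exp ℓ) < Real.exp (δ1 / 4 * ℓ) *
      (K1 * Real.exp ((2 - 1 / (s : ℝ) - δ1) * ℓ)) := by
    calc W * M / (8 * Real.exp ℓ) < e * M / (8 * Real.exp ℓ) := by gcongr
      _ ≤ e * M / (8 * Bp.card) := by gcongr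
      _ ≤ Real.exp (δ1 / 4 * ℓ) * ed (Dj U2 J J') A2 B2 := hfin
      _ ≤ _ := mul_le_mul_of_nonneg_left h1 (Real.exp_pos _).le
  have h3 : W * M / (8 * Real.exp ℓ) = Real.exp ((2 - 1 / (s : ℝ) - 5 * δ) * ℓ) / 8 := by
    rw [div_eq_div_iff (by positivity) (by norm_num), hW, hM, ← Real.exp_add, mul_comm 8 (Real.exp ℓ),
      ← mul_assoc, ← Real.exp_add]
    congr 2
    ring
  rw [h3] at h2
  have h4 : Real.exp ((2 - 1 / (s : ℝ) - 5 * δ) * ℓ) = Real.exp ((δ1 * 3 / 4 - 5 * δ) * ℓ) *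
      (Real.exp (δ1 / 4 * ℓ) * Real.exp ((2 - 1 / (s : ℝ) - δ1) * ℓ)) := by
    rw [← Real.exp_add, ← Real.exp_add]
    congr 1
    ring
  have h5 := big (δ1 * 3 / 4 - 5 * δ) (by linarith)
  have h6 : 8 * K1 ≤ X := by rw [hX]; linarith
  have h7 : 0 < Real.exp (δ1 / 4 * ℓ) * Real.exp ((2 - 1 / (s : ℝ) - δ1) * ℓ) := by positivity
  have h8 := mul_le_mul_of_nonneg_right (h6.trans h5) h7.le
  rw [h4] at h2
  nlinarith

/-- The main theorem for relations. -/
theorem PS_all {s : ℕ} (hs : 2 ≤ s) (C : ℝ) : PS s C := by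
  rcases le_or_gt C (1 / 4) with hC | hC
  · exact PS_mono hC (PS_base hs)
  obtain ⟨c, hc, hst⟩ := PS_step hs C (by linarith)
  have h1 : ∀ n : ℕ, PS s (min C (1 / 4 + n * c)) := by
    intro n
    induction n with
    | zero =>
      refine PS_mono ?_ (PS_base hs)
      rw [Nat.cast_zero, zero_mul, add_zero]
      exact min_le_right _ _
    | succ n ih =>
      refine hst _ _ (le_min (by linarith) (by positivity)) ?_ (min_le_left _ _) ih
      push_cast
      rw [← min_add_add_right]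
      refine min_le_min (by linarith) (by linarith)
  obtain ⟨n, hn⟩ := exists_nat_gt ((C - 1 / 4) / c)
  have h2 := h1 n
  rw [div_lt_iff₀ hc] at hn
  rw [min_eq_left (by linarith)] at h2
  exact h2

end Pool.Agent.V5helper69.BR
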