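import Pool.Agent.V5helper69.BR.Kst

/-!
# Random set systems: counting
-/

set_option autoImplicit false

namespace Pool.Agent.V5helper69.BR

open Finset
open scoped Classical

/-- The relation given by a family of pairs of colourings. -/
def Rw {n q L : ℕ} (w : Fin L → (Fin n → Fin (q + 1)) × (Fin n → Fin (q + 1))) (x y : Fin n) :
    Prop := ∀ j, ¬ ((w j).1 x = 0 ∧ (w j).2 y = 0)

theorem count_one {n q : ℕ} (S : Finset (Fin n)) :
    (((univ : Finset (Fin n → Fin (q + 1))).filter fun f => ∀ x ∈ S, f x ≠ 0).card : ℝ) =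
      ((q : ℝ) + 1) ^ n * (1 - 1 / ((q : ℝ) + 1)) ^ S.card := by
  have h1 : ((univ : Finset (Fin n → Fin (q + 1))).filter fun f => ∀ x ∈ S, f x ≠ 0) =
      Fintype.piFinset (fun x => if x ∈ S then (univ.erase (0 : Fin (q + 1))) else univ) := by
    ext f
    simp only [mem_filter, mem_univ, true_and, Fintype.mem_piFinset]
    refine forall_congr' fun x => ?_
    split_ifs with hx
    · simp [hx]
    · simp [hx]
  have hq : (0 : ℝ) < (q : ℝ) + 1 := by positivity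
  have h2 : ∀ x : Fin n, (((if x ∈ S then (univ.erase (0 : Fin (q + 1))) else univ) :
      Finset (Fin (q + 1))).card : ℝ) =
      ((q : ℝ) + 1) * (if x ∈ S then (1 - 1 / ((q : ℝ) + 1)) else 1) := by
    intro x
    split_ifs with hx
    · rw [card_erase_of_mem (mem_univ _), card_univ, Fintype.card_fin]
      push_cast
      field_simp
      simp
    · rw [card_univ, Fintype.card_fin]
      push_cast
      ring
  rw [h1, Fintype.card_piFinset]
  push_cast
  rw [prod_congr rfl fun x _ => h2 x, prod_mul_distrib, prod_const, card_univ, Fintype.card_fin]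
  congr 1
  rw [prod_ite, prod_const_one, mul_one, prod_const]
  congr 1
  congr 1
  ext x
  simp

theorem count_col {n q : ℕ} (S T : Finset (Fin n)) :
    (((univ : Finset ((Fin n → Fin (q + 1)) × (Fin n → Fin (q + 1)))).filter
      fun c => ∀ x ∈ S, ∀ y ∈ T, ¬ (c.1 x = 0 ∧ c.2 y = 0)).card : ℝ) =
      (((q : ℝ) + 1) ^ n) ^ 2 * (1 - (1 - (1 - 1 / ((q : ℝ) + 1)) ^ S.card) *
        (1 - (1 - 1 / ((q : ℝ) + 1)) ^ T.card)) := by
  have h1 : ∀ U : Finset (Fin n),
      ((((univ : Finset (Fin n → Fin (q + 1))).filter fun f => ¬ ∀ x ∈ U, f x ≠ 0).card : ℕ) : ℝ) =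
      ((q : ℝ) + 1) ^ n * (1 - (1 - 1 / ((q : ℝ) + 1)) ^ U.card) := by
    intro U
    have h2 := card_filter_add_card_filter_not
      (s := (univ : Finset (Fin n → Fin (q + 1)))) (fun f => ∀ x ∈ U, f x ≠ 0)
    rw [card_univ, Fintype.card_fun, Fintype.card_fin, Fintype.card_fin] at h2
    have h3 : ((((univ : Finset (Fin n → Fin (q + 1))).filter
        fun f => ∀ x ∈ U, f x ≠ 0).card : ℕ) : ℝ) +
        ((((univ : Finset (Fin n → Fin (q + 1))).filter
        fun f => ¬ ∀ x ∈ U, f x ≠ 0).card : ℕ) : ℝ) = ((q : ℝ) + 1) ^ n := by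
      exact_mod_cast h2
    rw [count_one] at h3
    linarith
  have h2 := card_filter_add_card_filter_not
    (s := (univ : Finset ((Fin n → Fin (q + 1)) × (Fin n → Fin (q + 1)))))
    (fun c => ∀ x ∈ S, ∀ y ∈ T, ¬ (c.1 x = 0 ∧ c.2 y = 0))
  have h3 : ((univ : Finset ((Fin n → Fin (q + 1)) × (Fin n → Fin (q + 1)))).filter
      fun c => ¬ ∀ x ∈ S, ∀ y ∈ T, ¬ (c.1 x = 0 ∧ c.2 y = 0)) =
      ((univ : Finset (Fin n → Fin (q + 1))).filter fun f => ¬ ∀ x ∈ S, f x ≠ 0) ×ˢ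
      ((univ : Finset (Fin n → Fin (q + 1))).filter fun f => ¬ ∀ x ∈ T, f x ≠ 0) := by
    ext c
    simp only [mem_filter, mem_univ, true_and, mem_product]
    push Not
    constructor
    · rintro ⟨x, hx, y, hy, h4, h5⟩
      exact ⟨⟨x, hx, h4⟩, ⟨y, hy, h5⟩⟩
    · rintro ⟨⟨x, hx, h4⟩, ⟨y, hy, h5⟩⟩
      exact ⟨x, hx, y, hy, h4, h5⟩
  rw [h3, card_product, card_univ, Fintype.card_prod, Fintype.card_fun, Fintype.card_fin,
    Fintype.card_fin] at h2
  have h4 : ((((univ : Finset ((Fin n → Fin (q + 1)) × (Fin n → Fin (q + 1)))).filter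
      fun c => ∀ x ∈ S, ∀ y ∈ T, ¬ (c.1 x = 0 ∧ c.2 y = 0)).card : ℕ) : ℝ) +
      (((univ : Finset (Fin n → Fin (q + 1))).filter fun f => ¬ ∀ x ∈ S, f x ≠ 0).card : ℝ) *
      (((univ : Finset (Fin n → Fin (q + 1))).filter fun f => ¬ ∀ x ∈ T, f x ≠ 0).card : ℝ) =
      ((q : ℝ) + 1) ^ n * ((q : ℝ) + 1) ^ n := by
    exact_mod_cast h2
  rw [h1 S, h1 T] at h4
  linarith

/-- The number of the families for which all pairs of `S × T` are related. -/
theorem count_all {n q L : ℕ} (S T : Finset (Fin n)) :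
    (((univ : Finset (Fin L → (Fin n → Fin (q + 1)) × (Fin n → Fin (q + 1)))).filter
      fun w => ∀ x ∈ S, ∀ y ∈ T, Rw w x y).card : ℝ) =
      ((((q : ℝ) + 1) ^ n) ^ 2) ^ L * (1 - (1 - (1 - 1 / ((q : ℝ) + 1)) ^ S.card) *
        (1 - (1 - 1 / ((q : ℝ) + 1)) ^ T.card)) ^ L := by
  have h1 : ((univ : Finset (Fin L → (Fin n → Fin (q + 1)) × (Fin n → Fin (q + 1)))).filter
      fun w => ∀ x ∈ S, ∀ y ∈ T, Rw w x y) = Fintype.piFinset (fun _ : Fin L =>
      (univ : Finset ((Fin n → Fin (q + 1)) × (Fin n → Fin (q + 1)))).filter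
      fun c => ∀ x ∈ S, ∀ y ∈ T, ¬ (c.1 x = 0 ∧ c.2 y = 0)) := by
    ext w
    simp only [mem_filter, mem_univ, true_and, Fintype.mem_piFinset, Rw]
    constructor
    · intro h j x hx y hy
      exact h x hx y hy j
    · intro h x hx y hy j
      exact h j x hx y hy
  rw [h1, Fintype.card_piFinset, prod_const, card_univ, Fintype.card_fin]
  push_cast
  rw [count_col, mul_pow]

/-- Averaging: there is a family with many related pairs and without bicliques. -/
theorem exists_family {n q L s t : ℕ} (V0 V1 : Finset (Fin n)) (hs : 1 ≤ s) (ht : 1 ≤ t)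
    (hV : V0.card * V1.card < n ^ 2) (hpos : 0 < V0.card * V1.card)
    (hq : 1 ≤ q)
    (h : 2 * (n : ℝ) ^ 2 * (n : ℝ) ^ (s + t) * (1 - (1 - (1 - 1 / ((q : ℝ) + 1)) ^ s) *
        (1 - (1 - 1 / ((q : ℝ) + 1)) ^ t)) ^ L ≤
        (V0.card * V1.card : ℝ) * (1 - (1 / ((q : ℝ) + 1)) ^ 2) ^ L / 2) :
    ∃ w : Fin L → (Fin n → Fin (q + 1)) × (Fin n → Fin (q + 1)),
      (V0.card * V1.card : ℝ) * (1 - (1 / ((q : ℝ) + 1)) ^ 2) ^ L / 2 ≤ ed (Rw w) V0 V1 ∧
      (∀ S T : Finset (Fin n), S.card = s → T.card = t → ¬ ∀ x ∈ S, ∀ y ∈ T, Rw w x y) ∧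
      (∀ S T : Finset (Fin n), S.card = t → T.card = s → ¬ ∀ x ∈ S, ∀ y ∈ T, Rw w x y) := by
  set Ω := Fin L → (Fin n → Fin (q + 1)) × (Fin n → Fin (q + 1)) with hΩ
  set D : ℝ := ((((q : ℝ) + 1) ^ n) ^ 2) ^ L with hD
  have hDp : 0 < D := by positivity
  set κ : ℝ := (1 - (1 - (1 - 1 / ((q : ℝ) + 1)) ^ s) *
        (1 - (1 - 1 / ((q : ℝ) + 1)) ^ t)) ^ L with hκ
  set ρ : ℝ := (1 - (1 / ((q : ℝ) + 1)) ^ 2) ^ L with hρ
  have hp1 : 1 / ((q : ℝ) + 1) ≤ 1 / 2 := by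
    have h1 : (1 : ℝ) ≤ q := by exact_mod_cast hq
    exact one_div_le_one_div_of_le (by norm_num) (by linarith)
  have hp0 : 0 < 1 / ((q : ℝ) + 1) := by positivity
  have hρp : 0 < ρ := by
    rw [hρ]
    refine pow_pos ?_ _
    nlinarith
  have cardΩ : (Fintype.card Ω : ℝ) = D := by
    rw [hD, Fintype.card_fun, Fintype.card_prod, Fintype.card_fun, Fintype.card_fin,
      Fintype.card_fin, Fintype.card_fin]
    push_cast
    ring
  set P1 := (powersetCard s (univ : Finset (Fin n))) ×ˢ (powersetCard t (univ : Finset (Fin n)))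
    with hP1
  set P2 := (powersetCard t (univ : Finset (Fin n))) ×ˢ (powersetCard s (univ : Finset (Fin n)))
    with hP2
  set N1 : Ω → ℝ := fun w => ∑ p ∈ P1, if (∀ x ∈ p.1, ∀ y ∈ p.2, Rw w x y) then (1 : ℝ) else 0
    with hN1
  set N2 : Ω → ℝ := fun w => ∑ p ∈ P2, if (∀ x ∈ p.1, ∀ y ∈ p.2, Rw w x y) then (1 : ℝ) else 0
    with hN2
  have e1 : ∑ w : Ω, ed (Rw w) V0 V1 = D * ((V0.card * V1.card : ℝ) * ρ) := by
    unfold ed
    rw [sum_comm]
    have h1 : ∀ x ∈ V0, ∑ w : Ω, ∑ y ∈ V1, (if Rw w x y then (1 : ℝ) else 0) =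
        V1.card * (D * ρ) := by
      intro x _
      rw [sum_comm]
      have h2 : ∀ y ∈ V1, ∑ w : Ω, (if Rw w x y then (1 : ℝ) else 0) = D * ρ := by
        intro y _
        have h3 := count_all (n := n) (q := q) (L := L) {x} {y}
        simp only [mem_singleton, forall_eq, card_singleton, pow_one] at h3
        rw [← sum_filter, sum_const, nsmul_eq_mul, mul_one, h3, hρ]
        congr 2
        ring
      rw [sum_congr rfl h2, sum_const, nsmul_eq_mul]
    rw [sum_congr rfl h1, sum_const, nsmul_eq_mul]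
    ring
  have cardle : ∀ a : ℕ, ((powersetCard a (univ : Finset (Fin n))).card : ℝ) ≤ (n : ℝ) ^ a := by
    intro a
    rw [card_powersetCard, card_univ, Fintype.card_fin]
    exact_mod_cast Nat.choose_le_pow n a
  have hκ0 : 0 ≤ κ := by
    rw [hκ]
    refine pow_nonneg ?_ _
    have h1 : 0 ≤ (1 - 1 / ((q : ℝ) + 1)) := by linarith
    have h2 : (1 - 1 / ((q : ℝ) + 1)) ≤ 1 := by linarith
    have h3 : 0 ≤ (1 - 1 / ((q : ℝ) + 1)) ^ s := pow_nonneg h1 _
    have h4 : 0 ≤ (1 - 1 / ((q : ℝ) + 1)) ^ t := pow_nonneg h1 _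
    have h5 : (1 - 1 / ((q : ℝ) + 1)) ^ s ≤ 1 := pow_le_one₀ h1 h2
    have h6 : (1 - 1 / ((q : ℝ) + 1)) ^ t ≤ 1 := pow_le_one₀ h1 h2
    nlinarith
  have e2 : ∑ w : Ω, N1 w ≤ D * ((n : ℝ) ^ (s + t) * κ) := by
    rw [hN1, sum_comm]
    have h1 : ∀ p ∈ P1, ∑ w : Ω, (if (∀ x ∈ p.1, ∀ y ∈ p.2, Rw w x y) then (1 : ℝ) else 0) =
        D * κ := by
      intro p hp
      rw [hP1, mem_product, mem_powersetCard, mem_powersetCard] at hp
      rw [← sum_filter, sum_const, nsmul_eq_mul, mul_one, count_all, hp.1.2, hp.2.2]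
    rw [sum_congr rfl h1, sum_const, nsmul_eq_mul, hP1, card_product, pow_add]
    push_cast
    have h2 := mul_le_mul (cardle s) (cardle t) (Nat.cast_nonneg _) (by positivity)
    have h3 := mul_le_mul_of_nonneg_right h2 (mul_nonneg hDp.le hκ0)
    linarith
  have e3 : ∑ w : Ω, N2 w ≤ D * ((n : ℝ) ^ (s + t) * κ) := by
    rw [hN2, sum_comm]
    have h1 : ∀ p ∈ P2, ∑ w : Ω, (if (∀ x ∈ p.1, ∀ y ∈ p.2, Rw w x y) then (1 : ℝ) else 0) =
        D * κ := by
      intro p hp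
      rw [hP2, mem_product, mem_powersetCard, mem_powersetCard] at hp
      rw [← sum_filter, sum_const, nsmul_eq_mul, mul_one, count_all, hp.1.2, hp.2.2, hκ]
      congr 2
      ring
    rw [sum_congr rfl h1, sum_const, nsmul_eq_mul, hP2, card_product, pow_add]
    push_cast
    have h2 := mul_le_mul (cardle t) (cardle s) (Nat.cast_nonneg _) (by positivity)
    have h3 := mul_le_mul_of_nonneg_right h2 (mul_nonneg hDp.le hκ0)
    linarith
  have e4 : D * ((V0.card * V1.card : ℝ) * ρ / 2) ≤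
      ∑ w : Ω, (ed (Rw w) V0 V1 - (n : ℝ) ^ 2 * (N1 w + N2 w)) := by
    rw [sum_sub_distrib, ← mul_sum, sum_add_distrib, e1]
    have h1 : (n : ℝ) ^ 2 * (∑ w : Ω, N1 w + ∑ w : Ω, N2 w) ≤
        (n : ℝ) ^ 2 * (D * ((n : ℝ) ^ (s + t) * κ) + D * ((n : ℝ) ^ (s + t) * κ)) := by
      gcongr
    have h2 := mul_le_mul_of_nonneg_left h hDp.le
    nlinarith
  obtain ⟨w, _, hw⟩ : ∃ w ∈ (univ : Finset Ω), (V0.card * V1.card : ℝ) * ρ / 2 ≤
      ed (Rw w) V0 V1 - (n : ℝ) ^ 2 * (N1 w + N2 w) := by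
    by_contra hcon
    push Not at hcon
    have hne : (univ : Finset Ω).Nonempty := by
      rw [← card_pos, card_univ]
      have : (0 : ℝ) < Fintype.card Ω := by rw [cardΩ]; exact hDp
      exact_mod_cast this
    have h1 := sum_lt_sum_of_nonempty hne hcon
    rw [sum_const, card_univ, nsmul_eq_mul, cardΩ] at h1
    linarith
  have hN10 : 0 ≤ N1 w := sum_nonneg fun p _ => by split_ifs <;> norm_num
  have hN20 : 0 ≤ N2 w := sum_nonneg fun p _ => by split_ifs <;> norm_num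
  have hmain0 : 0 < (V0.card * V1.card : ℝ) * ρ / 2 := by
    have : (0 : ℝ) < V0.card * V1.card := by exact_mod_cast hpos
    positivity
  have hle : ed (Rw w) V0 V1 < (n : ℝ) ^ 2 := by
    refine lt_of_le_of_lt (ed_le_card _ _ _) ?_
    exact_mod_cast hV
  have hn0 : (0 : ℝ) ≤ (n : ℝ) ^ 2 := by positivity
  refine ⟨w, by nlinarith [mul_nonneg hn0 (add_nonneg hN10 hN20)], ?_, ?_⟩
  · intro S T hS hT hall
    have h1 : 1 ≤ N1 w := by
      have h2 : (S, T) ∈ P1 := by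
        rw [hP1, mem_product, mem_powersetCard, mem_powersetCard]
        exact ⟨⟨subset_univ _, hS⟩, ⟨subset_univ _, hT⟩⟩
      refine le_trans ?_ (single_le_sum (f := fun p : Finset (Fin n) × Finset (Fin n) =>
        if (∀ x ∈ p.1, ∀ y ∈ p.2, Rw w x y) then (1 : ℝ) else 0)
        (fun p _ => by split_ifs <;> norm_num) h2)
      rw [if_pos hall]
    nlinarith
  · intro S T hS hT hall
    have h1 : 1 ≤ N2 w := by
      have h2 : (S, T) ∈ P2 := by
        rw [hP2, mem_product, mem_powersetCard, mem_powersetCard]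
        exact ⟨⟨subset_univ _, hS⟩, ⟨subset_univ _, hT⟩⟩
      refine le_trans ?_ (single_le_sum (f := fun p : Finset (Fin n) × Finset (Fin n) =>
        if (∀ x ∈ p.1, ∀ y ∈ p.2, Rw w x y) then (1 : ℝ) else 0)
        (fun p _ => by split_ifs <;> norm_num) h2)
      rw [if_pos hall]
    nlinarith

end Pool.Agent.V5helper69.BR
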