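import Pool.Agent.V5helper69.BR.Tiny

/-!
# Eliminating many points
-/

set_option autoImplicit false

namespace Pool.Agent.V5helper69.BR

open Finset
open scoped Classical

variable {α β ι : Type}

/-- Choice of an element `y₀` with a large trace and a small intersection with many `x`. -/
theorem pick (U : Finset ι) (J : α → Finset ι) (J' : β → Finset ι) (A : Finset α) (B : Finset β)
    (s t : ℕ) (h : KF (Dj U J J') A B s t)
    (hd : ∀ y ∈ B, s ≤ (A.filter fun x => Dj U J J' x y).card)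
    (M k m P1 : ℝ) (he : 0 < ed (Dj U J J') A B) (hM : 0 < M)
    (hP1 : (((U.powerset.filter fun v => (v.card : ℝ) ≤ m).card : ℕ) : ℝ) ≤ P1)
    (hsm : t * P1 ≤ M / 8)
    (h1 : ed (Dj U J J') A B * M / 4 ≤ ∑ x ∈ A, dg (Dj U J J') B x *
      (B.filter fun y => ((U ∩ (J x ∩ J' y)).card : ℝ) ≤ k).card) :
    ∃ y0 ∈ B, m < ((U ∩ J' y0).card : ℝ) ∧ ed (Dj U J J') A B * M / (8 * B.card) ≤
      ∑ x ∈ A.filter (fun x => ((U ∩ (J x ∩ J' y0)).card : ℝ) ≤ k), dg (Dj U J J') B x := by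
  set e := ed (Dj U J J') A B with hedef
  set f : β → ℝ := fun y => ∑ x ∈ A.filter (fun x => ((U ∩ (J x ∩ J' y)).card : ℝ) ≤ k),
    dg (Dj U J J') B x with hf
  have hf0 : ∀ y, 0 ≤ f y := fun y => sum_nonneg fun x _ => dg_nonneg _ _ _
  have hfe : ∀ y, f y ≤ e := by
    intro y
    rw [hedef, ed_dg]
    exact sum_le_sum_of_subset_of_nonneg (filter_subset _ _) fun x _ _ => dg_nonneg _ _ _
  have h2 : ∑ x ∈ A, dg (Dj U J J') B x *
      (B.filter fun y => ((U ∩ (J x ∩ J' y)).card : ℝ) ≤ k).card = ∑ y ∈ B, f y := by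
    have h3 : ∀ x ∈ A, dg (Dj U J J') B x *
        (B.filter fun y => ((U ∩ (J x ∩ J' y)).card : ℝ) ≤ k).card =
        ∑ y ∈ B, if ((U ∩ (J x ∩ J' y)).card : ℝ) ≤ k then dg (Dj U J J') B x else 0 := by
      intro x _
      rw [← sum_filter, sum_const, nsmul_eq_mul, mul_comm]
    rw [sum_congr rfl h3, sum_comm]
    refine sum_congr rfl fun y _ => ?_
    rw [hf, ← sum_filter]
  rw [h2] at h1
  set Bs := B.filter fun y => ((U ∩ J' y).card : ℝ) ≤ m with hBs
  have h4 : (Bs.card : ℝ) ≤ t * P1 := by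
    have h5 : Bs.card ≤ ∑ p ∈ U.powerset.filter (fun v => (v.card : ℝ) ≤ m), t := by
      calc Bs.card = ∑ p ∈ U.powerset.filter (fun v => (v.card : ℝ) ≤ m),
            (Bs.filter fun y => U ∩ J' y = p).card := by
            refine card_eq_sum_card_fiberwise fun y hy => ?_
            exact mem_coe.2 (mem_filter.2 ⟨mem_powerset.2 inter_subset_left, (mem_filter.1 hy).2⟩)
        _ ≤ ∑ p ∈ U.powerset.filter (fun v => (v.card : ℝ) ≤ m), t := by
            refine sum_le_sum fun p _ => ?_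
            refine (card_le_card (filter_subset_filter _ (filter_subset _ _))).trans
              (twins U J J' A B s t h hd p)
    rw [sum_const, smul_eq_mul] at h5
    calc (Bs.card : ℝ) ≤ (((U.powerset.filter fun v => (v.card : ℝ) ≤ m).card : ℕ) : ℝ) * t := by
          exact_mod_cast h5
      _ ≤ P1 * t := mul_le_mul_of_nonneg_right hP1 (Nat.cast_nonneg _)
      _ = t * P1 := mul_comm _ _
  have h6 : ∑ y ∈ Bs, f y ≤ e * M / 8 := by
    calc ∑ y ∈ Bs, f y ≤ ∑ _y ∈ Bs, e := sum_le_sum fun y _ => hfe y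
      _ = Bs.card * e := by rw [sum_const, nsmul_eq_mul]
      _ ≤ (M / 8) * e := mul_le_mul_of_nonneg_right (h4.trans hsm) he.le
      _ = e * M / 8 := by ring
  set Bl := B.filter fun y => ¬ ((U ∩ J' y).card : ℝ) ≤ m with hBl
  have h7 : e * M / 8 ≤ ∑ y ∈ Bl, f y := by
    have h8 : ∑ y ∈ B, f y = ∑ y ∈ Bs, f y + ∑ y ∈ Bl, f y :=
      (sum_filter_add_sum_filter_not _ _ _).symm
    rw [h8] at h1
    linarith
  have hBlne : Bl.Nonempty := by
    rw [nonempty_iff_ne_empty]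
    intro h0
    rw [h0, sum_empty] at h7
    have : 0 < e * M / 8 := by positivity
    linarith
  obtain ⟨y0, hy0, h9⟩ := exists_max_image Bl f hBlne
  have hy0B := (mem_filter.1 hy0).1
  refine ⟨y0, hy0B, not_le.1 (mem_filter.1 hy0).2, ?_⟩
  have hBp : (0 : ℝ) < B.card := by exact_mod_cast card_pos.2 ⟨y0, hy0B⟩
  have h10 : ∑ y ∈ Bl, f y ≤ B.card * f y0 := by
    calc ∑ y ∈ Bl, f y ≤ ∑ _y ∈ Bl, f y0 := sum_le_sum h9
      _ = Bl.card * f y0 := by rw [sum_const, nsmul_eq_mul]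
      _ ≤ B.card * f y0 := mul_le_mul_of_nonneg_right
          (by exact_mod_cast card_filter_le _ _) (hf0 _)
  rw [div_le_iff₀ (by positivity)]
  have h11 : e * M / 8 ≤ B.card * f y0 := h7.trans h10
  change e * M ≤ f y0 * (8 * B.card)
  linarith

/-- One step: a part of the relation in which the trace of `y₀` has been eliminated. -/
theorem step (U : Finset ι) (J : α → Finset ι) (J' : β → Finset ι) (A : Finset α) (B : Finset β)
    (s t : ℕ) (h : KF (Dj U J J') A B s t)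
    (hd : ∀ y ∈ B, s ≤ (A.filter fun x => Dj U J J' x y).card)
    (M k m P1 P2 : ℝ) (he : 0 < ed (Dj U J J') A B) (hM : 0 < M)
    (hP1 : (((U.powerset.filter fun v => (v.card : ℝ) ≤ m).card : ℕ) : ℝ) ≤ P1)
    (hP2 : (((U.powerset.filter fun v => (v.card : ℝ) ≤ k).card : ℕ) : ℝ) ≤ P2)
    (hsm : t * P1 ≤ M / 8)
    (h1 : ed (Dj U J J') A B * M / 4 ≤ ∑ x ∈ A, dg (Dj U J J') B x *
      (B.filter fun y => ((U ∩ (J x ∩ J' y)).card : ℝ) ≤ k).card) :
    ∃ (U' : Finset ι) (A' : Finset α) (B' : Finset β), (U'.card : ℝ) ≤ U.card - m ∧ A' ⊆ A ∧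
      B' ⊆ B ∧ KF (Dj U' J J') A' B' s t ∧
      ed (Dj U J J') A B * M / (8 * B.card) ≤ P2 * ed (Dj U' J J') A' B' := by
  obtain ⟨y0, hy0, hm, h2⟩ := pick U J J' A B s t h hd M k m P1 he hM hP1 hsm h1
  set V := U.powerset.filter fun v => (v.card : ℝ) ≤ k with hV
  set A1 := A.filter (fun x => ((U ∩ (J x ∩ J' y0)).card : ℝ) ≤ k) with hA1
  set e' := ed (Dj U J J') A B * M / (8 * B.card) with he'
  have hBp : (0 : ℝ) < B.card := by exact_mod_cast card_pos.2 ⟨y0, hy0⟩
  have he'0 : 0 < e' := by positivity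
  have h3 : ∑ x ∈ A1, dg (Dj U J J') B x =
      ∑ v ∈ V, ∑ x ∈ A1.filter (fun x => U ∩ (J x ∩ J' y0) = v), dg (Dj U J J') B x := by
    refine (sum_fiberwise_of_maps_to (fun x hx => ?_) _).symm
    exact mem_filter.2 ⟨mem_powerset.2 inter_subset_left, (mem_filter.1 hx).2⟩
  have hVne : V.Nonempty := by
    rw [nonempty_iff_ne_empty]
    intro h0
    rw [h3, h0, sum_empty] at h2
    linarith
  obtain ⟨v, hv, h4⟩ := exists_max_image V (fun v =>
    ∑ x ∈ A1.filter (fun x => U ∩ (J x ∩ J' y0) = v), dg (Dj U J J') B x) hVne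
  set A' := A1.filter (fun x => U ∩ (J x ∩ J' y0) = v) with hA'
  set B' := B.filter (fun y => v ∩ J' y = ∅) with hB'
  set U' := U \ J' y0 with hU'
  have hrel : ∀ x ∈ A', ∀ y ∈ B', (Dj U' J J' x y ↔ Dj U J J' x y) := by
    intro x hx y hy
    have hx2 := (mem_filter.1 hx).2
    have hy2 := (mem_filter.1 hy).2
    constructor
    · intro h5 j hj hjx hjy
      by_cases hj0 : j ∈ J' y0
      · have h6 : j ∈ v := by
          rw [← hx2]
          exact mem_inter.2 ⟨hj, mem_inter.2 ⟨hjx, hj0⟩⟩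
        have h7 : j ∈ v ∩ J' y := mem_inter.2 ⟨h6, hjy⟩
        rw [hy2] at h7
        exact notMem_empty _ h7
      · exact h5 j (mem_sdiff.2 ⟨hj, hj0⟩) hjx hjy
    · intro h5 j hj hjx hjy
      exact h5 j (mem_sdiff.1 hj).1 hjx hjy
  have hA'A : A' ⊆ A := (filter_subset _ _).trans (filter_subset _ _)
  have hB'B : B' ⊆ B := filter_subset _ _
  refine ⟨U', A', B', ?_, hA'A, hB'B, ?_, ?_⟩
  · have h5 := card_sdiff_add_card_inter U (J' y0)
    have h6 : (U'.card : ℝ) + (U ∩ J' y0).card = U.card := by exact_mod_cast h5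
    linarith
  · intro S hS hs T hT ht
    obtain ⟨x, hx, y, hy, hn⟩ := h S (hS.trans hA'A) hs T (hT.trans hB'B) ht
    exact ⟨x, hx, y, hy, fun hc => hn ((hrel x (hS hx) y (hT hy)).1 hc)⟩
  · have h5 : ∑ x ∈ A', dg (Dj U J J') B x = ed (Dj U' J J') A' B' := by
      rw [ed_dg]
      refine sum_congr rfl fun x hx => ?_
      unfold dg
      congr 2
      ext y
      rw [mem_filter, mem_filter]
      constructor
      · rintro ⟨hy, hR⟩
        have hyB' : y ∈ B' := by
          refine mem_filter.2 ⟨hy, ?_⟩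
          rw [eq_empty_iff_forall_notMem]
          intro j hj
          rw [mem_inter] at hj
          have h6 : j ∈ U ∩ (J x ∩ J' y0) := by
            rw [(mem_filter.1 hx).2]
            exact hj.1
          rw [mem_inter, mem_inter] at h6
          exact hR j h6.1 h6.2.1 hj.2
        exact ⟨hyB', (hrel x hx y hyB').2 hR⟩
      · rintro ⟨hy, hR⟩
        exact ⟨(mem_filter.1 hy).1, (hrel x hx y hy).1 hR⟩
    rw [← h5]
    have h6 : ∑ x ∈ A1, dg (Dj U J J') B x ≤ V.card * ∑ x ∈ A', dg (Dj U J J') B x := by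
      rw [h3, ← nsmul_eq_mul, ← sum_const]
      exact sum_le_sum h4
    have h7 : 0 ≤ ∑ x ∈ A', dg (Dj U J J') B x := sum_nonneg fun x _ => dg_nonneg _ _ _
    calc e' ≤ ∑ x ∈ A1, dg (Dj U J J') B x := h2
      _ ≤ V.card * ∑ x ∈ A', dg (Dj U J J') B x := h6
      _ ≤ P2 * ∑ x ∈ A', dg (Dj U J J') B x := mul_le_mul_of_nonneg_right hP2 h7

end Pool.Agent.V5helper69.BR
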