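import Pool.Agent.V5helper69.BR.Cnt

/-!
# Many pairs with small intersections
-/

set_option autoImplicit false

namespace Pool.Agent.V5helper69.BR

open Finset
open scoped Classical

variable {α β ι : Type}

/-- the degree of `x` in `B` -/
noncomputable def dg (R : α → β → Prop) (B : Finset β) (x : α) : ℝ :=
  ((B.filter fun y => R x y).card : ℝ)

theorem dg_nonneg (R : α → β → Prop) (B : Finset β) (x : α) : 0 ≤ dg R B x := Nat.cast_nonneg _

theorem ed_dg (R : α → β → Prop) (A : Finset α) (B : Finset β) : ed R A B = ∑ x ∈ A, dg R B x :=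
  ed_row R A B

/-- the set of the elements of `B` which survive the sample `g` of `J x` -/
noncomputable def Yg (J : α → Finset ι) (J' : β → Finset ι) (B : Finset β) {r : ℕ} (g : Fin r → ι)
    (x : α) : Finset β := B.filter fun y => ∀ i, g i ∈ J x → g i ∉ J' y

theorem bad_sum (U : Finset ι) (J : α → Finset ι) (J' : β → Finset ι) (A : Finset α) (B : Finset β)
    (s t : ℕ) (hs : 1 ≤ s) (h : KF (Dj U J J') A B s t) {r : ℕ} (g : Fin r → ι)
    (hg : ∀ i, g i ∈ U) (M : ℝ) (hM : 0 ≤ M) :
    ∑ x ∈ A.filter (fun x => ((Yg J J' B g x).card : ℝ) < M), dg (Dj U J J') B x ≤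
      t * A.card * M ^ (1 - 1 / (s : ℝ)) + s * 2 ^ r * B.card := by
  set θ : ℝ := 1 - 1 / (s : ℝ) with hθ
  have hθ0 : 0 ≤ θ := by
    have h1 : (1 : ℝ) ≤ s := by exact_mod_cast hs
    have : 1 / (s : ℝ) ≤ 1 := by rw [div_le_one (by linarith)]; exact h1
    linarith
  set A' := A.filter (fun x => ((Yg J J' B g x).card : ℝ) < M) with hA'
  have h1 : ∀ q ∈ (univ : Finset (Finset (Fin r))),
      ∑ x ∈ A'.filter (fun x => (univ.filter fun i => g i ∈ J x) = q), dg (Dj U J J') B x ≤
      t * (A'.filter (fun x => (univ.filter fun i => g i ∈ J x) = q)).card * M ^ θ +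
        s * B.card := by
    intro q _
    set Aq := A'.filter (fun x => (univ.filter fun i => g i ∈ J x) = q) with hAq
    set Yq := B.filter (fun y => ∀ i ∈ q, g i ∉ J' y) with hYq
    rcases Aq.eq_empty_or_nonempty with he | hne
    · rw [he, sum_empty]
      positivity
    have hY : ∀ x ∈ Aq, Yg J J' B g x = Yq := by
      intro x hx
      have hx2 := (mem_filter.1 hx).2
      ext y
      rw [hYq, Yg, mem_filter, mem_filter]
      refine and_congr_right fun _ => ?_
      constructor
      · intro h2 i hi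
        rw [← hx2, mem_filter] at hi
        exact h2 i hi.2
      · intro h2 i hi
        refine h2 i ?_
        rw [← hx2, mem_filter]
        exact ⟨mem_univ _, hi⟩
    have hYM : (Yq.card : ℝ) ≤ M := by
      obtain ⟨x, hx⟩ := hne
      have h2 := (mem_filter.1 (mem_filter.1 hx).1).2
      rw [hY x hx] at h2
      exact h2.le
    have h3 : ∑ x ∈ Aq, dg (Dj U J J') B x = ed (Dj U J J') Aq Yq := by
      rw [ed_dg]
      refine sum_congr rfl fun x hx => ?_
      unfold dg
      congr 2
      ext y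
      rw [mem_filter, mem_filter]
      constructor
      · rintro ⟨hy, hR⟩
        refine ⟨?_, hR⟩
        rw [← hY x hx, Yg, mem_filter]
        exact ⟨hy, fun i hi => hR (g i) (hg i) hi⟩
      · rintro ⟨hy, hR⟩
        exact ⟨(mem_filter.1 hy).1, hR⟩
    rw [h3]
    have hAsub : Aq ⊆ A := (filter_subset _ _).trans (filter_subset _ _)
    have hYsub : Yq ⊆ B := filter_subset _ _
    refine (kst hs (h.mono hAsub hYsub)).trans ?_
    have h4 : (Yq.card : ℝ) ^ θ ≤ M ^ θ := Real.rpow_le_rpow (Nat.cast_nonneg _) hYM hθ0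
    have h5 : (Yq.card : ℝ) ≤ B.card := by exact_mod_cast card_le_card hYsub
    gcongr
  have h2 : ∑ x ∈ A', dg (Dj U J J') B x = ∑ q ∈ (univ : Finset (Finset (Fin r))),
      ∑ x ∈ A'.filter (fun x => (univ.filter fun i => g i ∈ J x) = q), dg (Dj U J J') B x :=
    (sum_fiberwise_of_maps_to (fun x _ => mem_univ _) _).symm
  rw [h2]
  refine (sum_le_sum h1).trans ?_
  rw [sum_add_distrib, ← sum_mul, ← mul_sum, sum_const, card_univ, Fintype.card_finset,
    Fintype.card_fin, nsmul_eq_mul]
  have h3 : ∑ q ∈ (univ : Finset (Finset (Fin r))),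
      ((A'.filter (fun x => (univ.filter fun i => g i ∈ J x) = q)).card : ℝ) = A'.card := by
    rw [← Nat.cast_sum]
    congr 1
    exact (card_eq_sum_card_fiberwise fun x _ => mem_coe.2 (mem_univ _)).symm
  rw [h3]
  have h4 : (A'.card : ℝ) ≤ A.card := by exact_mod_cast card_filter_le _ _
  have h5 : 0 ≤ M ^ θ := Real.rpow_nonneg hM _
  push_cast
  have h6 : (t : ℝ) * A'.card * M ^ θ ≤ t * A.card * M ^ θ := by gcongr
  linarith

theorem sample_sum (U : Finset ι) (J : α → Finset ι) (J' : β → Finset ι) (A : Finset α)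
    (B : Finset β) (s t : ℕ) (hs : 1 ≤ s) (h : KF (Dj U J J') A B s t) {r : ℕ} (g : Fin r → ι)
    (hg : ∀ i, g i ∈ U) (M : ℝ) (hM : 0 ≤ M) :
    M * (ed (Dj U J J') A B - (t * A.card * M ^ (1 - 1 / (s : ℝ)) + s * 2 ^ r * B.card)) ≤
      ∑ x ∈ A, dg (Dj U J J') B x * (Yg J J' B g x).card := by
  have h1 := bad_sum U J J' A B s t hs h g hg M hM
  have h2 : ed (Dj U J J') A B =
      ∑ x ∈ A.filter (fun x => ((Yg J J' B g x).card : ℝ) < M), dg (Dj U J J') B x +
      ∑ x ∈ A.filter (fun x => ¬ ((Yg J J' B g x).card : ℝ) < M), dg (Dj U J J') B x := by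
    rw [ed_dg, sum_filter_add_sum_filter_not]
  have h3 : M * ∑ x ∈ A.filter (fun x => ¬ ((Yg J J' B g x).card : ℝ) < M), dg (Dj U J J') B x ≤
      ∑ x ∈ A, dg (Dj U J J') B x * (Yg J J' B g x).card := by
    rw [mul_sum]
    calc ∑ x ∈ A.filter (fun x => ¬ ((Yg J J' B g x).card : ℝ) < M), M * dg (Dj U J J') B x
        ≤ ∑ x ∈ A.filter (fun x => ¬ ((Yg J J' B g x).card : ℝ) < M),
          dg (Dj U J J') B x * (Yg J J' B g x).card := by
          refine sum_le_sum fun x hx => ?_
          have h4 := (mem_filter.1 hx).2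
          push Not at h4
          rw [mul_comm]
          exact mul_le_mul_of_nonneg_left h4 (dg_nonneg _ _ _)
      _ ≤ _ := sum_le_sum_of_subset_of_nonneg (filter_subset _ _) fun x _ _ =>
          mul_nonneg (dg_nonneg _ _ _) (Nat.cast_nonneg _)
  refine le_trans (mul_le_mul_of_nonneg_left ?_ hM) h3
  linarith

theorem avg (U : Finset ι) (J : α → Finset ι) (J' : β → Finset ι) (A : Finset α)
    (B : Finset β) (w : α → ℝ) (r : ℕ) :
    ∑ g ∈ Fintype.piFinset (fun _ : Fin r => U), ∑ x ∈ A, w x * (Yg J J' B g x).card =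
      ∑ x ∈ A, w x * ∑ y ∈ B, ((U \ (J x ∩ J' y)).card : ℝ) ^ r := by
  rw [sum_comm]
  refine sum_congr rfl fun x _ => ?_
  rw [← mul_sum]
  congr 1
  have h1 : ∀ g : Fin r → ι, ((Yg J J' B g x).card : ℝ) =
      ∑ y ∈ B, if (∀ i, g i ∈ J x → g i ∉ J' y) then (1 : ℝ) else 0 := by
    intro g
    rw [Yg, card_filter]
    push_cast
    rfl
  simp only [h1]
  rw [sum_comm]
  refine sum_congr rfl fun y _ => ?_
  rw [← sum_filter, sum_const, nsmul_eq_mul, mul_one, ← Nat.cast_pow]
  congr 1
  have h5 : (U \ (J x ∩ J' y)).card ^ r =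
      (Fintype.piFinset (fun _ : Fin r => U \ (J x ∩ J' y))).card := by
    rw [Fintype.card_piFinset, prod_const, card_univ, Fintype.card_fin]
  rw [h5]
  congr 1
  ext g
  simp only [mem_filter, Fintype.mem_piFinset, mem_sdiff, mem_inter, not_and]
  constructor
  · rintro ⟨h2, h3⟩ i
    exact ⟨h2 i, h3 i⟩
  · intro h2
    exact ⟨fun i => (h2 i).1, fun i => (h2 i).2⟩

/-- Many pairs have small intersections (with the degrees as weights). -/
theorem tiny (U : Finset ι) (J : α → Finset ι) (J' : β → Finset ι) (A : Finset α) (B : Finset β)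
    (s t : ℕ) (hs : 1 ≤ s) (h : KF (Dj U J J') A B s t) (r : ℕ) (M k : ℝ) (hM : 0 ≤ M)
    (hU : U.Nonempty)
    (h1 : t * A.card * M ^ (1 - 1 / (s : ℝ)) + s * 2 ^ r * B.card ≤ ed (Dj U J J') A B / 2)
    (h2 : B.card * Real.exp (-(r * k / U.card)) ≤ M / 4) :
    ed (Dj U J J') A B * M / 4 ≤ ∑ x ∈ A, dg (Dj U J J') B x *
      (B.filter fun y => ((U ∩ (J x ∩ J' y)).card : ℝ) ≤ k).card := by
  set e := ed (Dj U J J') A B with he
  have he0 : 0 ≤ e := ed_nonneg _ _ _
  have hUp : (0 : ℝ) < U.card := by exact_mod_cast hU.card_pos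
  have h3 : (U.card : ℝ) ^ r * (M * (e / 2)) ≤
      ∑ x ∈ A, dg (Dj U J J') B x * ∑ y ∈ B, ((U \ (J x ∩ J' y)).card : ℝ) ^ r := by
    rw [← avg]
    have h4 : ∀ g ∈ Fintype.piFinset (fun _ : Fin r => U), M * (e / 2) ≤
        ∑ x ∈ A, dg (Dj U J J') B x * (Yg J J' B g x).card := by
      intro g hg
      rw [Fintype.mem_piFinset] at hg
      refine le_trans ?_ (sample_sum U J J' A B s t hs h g hg M hM)
      refine mul_le_mul_of_nonneg_left ?_ hM
      linarith
    have h5 := sum_le_sum h4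
    rw [sum_const, Fintype.card_piFinset, prod_const, card_univ, Fintype.card_fin,
      nsmul_eq_mul] at h5
    push_cast at h5
    exact h5
  have h6 : ∀ x ∈ A, dg (Dj U J J') B x * ∑ y ∈ B, ((U \ (J x ∩ J' y)).card : ℝ) ^ r ≤
      (U.card : ℝ) ^ r * (dg (Dj U J J') B x *
        (B.filter fun y => ((U ∩ (J x ∩ J' y)).card : ℝ) ≤ k).card +
        dg (Dj U J J') B x * (M / 4)) := by
    intro x _
    rw [← mul_add, ← mul_assoc, mul_comm ((U.card : ℝ) ^ r), mul_assoc]
    refine mul_le_mul_of_nonneg_left ?_ (dg_nonneg _ _ _)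
    have h7 : ∀ y ∈ B, ((U \ (J x ∩ J' y)).card : ℝ) ^ r ≤ (U.card : ℝ) ^ r *
        ((if ((U ∩ (J x ∩ J' y)).card : ℝ) ≤ k then 1 else 0) +
          Real.exp (-(r * k / U.card))) := by
      intro y _
      have h8 : ((U \ (J x ∩ J' y)).card : ℝ) = U.card - (U ∩ (J x ∩ J' y)).card := by
        have h9 := card_sdiff_add_card_inter U (J x ∩ J' y)
        rw [eq_sub_iff_add_eq]
        exact_mod_cast h9
      split_ifs with hc
      · have h9 : ((U \ (J x ∩ J' y)).card : ℝ) ^ r ≤ (U.card : ℝ) ^ r := by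
          refine pow_le_pow_left₀ (Nat.cast_nonneg _) ?_ _
          exact_mod_cast card_le_card sdiff_subset
        have h10 : 0 ≤ (U.card : ℝ) ^ r * Real.exp (-(r * k / U.card)) := by positivity
        linarith
      · rw [zero_add]
        push Not at hc
        have h9 : ((U \ (J x ∩ J' y)).card : ℝ) ≤ U.card * Real.exp (-(k / U.card)) := by
          have h10 := Real.add_one_le_exp (-(k / (U.card : ℝ)))
          have h11 : (U.card : ℝ) * (-(k / U.card) + 1) = U.card - k := by
            field_simp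
            ring
          calc ((U \ (J x ∩ J' y)).card : ℝ) ≤ U.card - k := by linarith
            _ = (U.card : ℝ) * (-(k / U.card) + 1) := h11.symm
            _ ≤ _ := mul_le_mul_of_nonneg_left h10 hUp.le
        calc ((U \ (J x ∩ J' y)).card : ℝ) ^ r ≤ (U.card * Real.exp (-(k / U.card))) ^ r :=
              pow_le_pow_left₀ (Nat.cast_nonneg _) h9 _
          _ = (U.card : ℝ) ^ r * Real.exp (-(r * k / U.card)) := by
              rw [mul_pow, ← Real.exp_nat_mul]
              congr 2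
              ring
    refine (sum_le_sum h7).trans ?_
    rw [← mul_sum, sum_add_distrib, sum_const, nsmul_eq_mul]
    refine mul_le_mul_of_nonneg_left ?_ (by positivity)
    refine add_le_add ?_ h2
    rw [card_filter]
    push_cast
    exact le_rfl
  have h7 := h3.trans (sum_le_sum h6)
  rw [← mul_sum, sum_add_distrib, ← sum_mul, ← ed_dg] at h7
  have h8 := le_of_mul_le_mul_left h7 (by positivity)
  linarith

end Pool.Agent.V5helper69.BR
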