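import Pool.Agent.V5helper69.BR.Main
import Pool.Agent.V5helper69.BR.Defs

/-!
# The upper bound for graphs
-/

set_option autoImplicit false

namespace Pool.Agent.V5helper69.BR

open Finset
open scoped Classical

theorem upper {s : ℕ} (hs : 2 ≤ s) (C : ℝ) : ∃ δ : ℝ, 0 < δ ∧ ∀ t : ℕ, ∃ K : ℝ, 0 < K ∧
    ∀ (n M : ℕ) (G : SimpleGraph (Fin n)) (ι : Type) [Fintype ι] (A B : Fin M → ι → Set (Fin n)),
      (Fintype.card ι : ℝ) ≤ C * Real.log n →
      (∀ x y, x ≠ y → (G.Adj x y ↔ ∃ m, Avoids (A m) (B m) x y)) → NoBiclique G s t →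
      (G.edgeSet.ncard : ℝ) ≤ K * M * (n : ℝ) ^ (2 - 1 / (s : ℝ) - δ) := by
  obtain ⟨δ, hδ, hP⟩ := PS_all hs C
  refine ⟨δ, hδ, fun t => ?_⟩
  obtain ⟨K, hK, hP⟩ := hP (s + t)
  refine ⟨K, hK, ?_⟩
  intro n M G ι _ A B hι hG hfree
  rcases Nat.eq_zero_or_pos n with hn | hn
  · subst hn
    have h1 : G.edgeSet.ncard = 0 := by
      rw [Set.ncard_eq_zero]
      ext e
      induction e with
      | _ x y => exact x.elim0
    rw [h1, Nat.cast_zero]
    positivity
  have hn' : (0 : ℝ) < n := by exact_mod_cast hn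
  have h1 : (G.edgeSet.ncard : ℝ) ≤ ∑ x : Fin n, ∑ y : Fin n, if G.Adj x y then (1 : ℝ) else 0 := by
    have h2 : G.edgeSet.ncard = G.edgeFinset.card := by
      rw [← SimpleGraph.coe_edgeFinset, Set.ncard_coe_finset]
    have h3 := G.sum_degrees_eq_twice_card_edges
    have h4 : ∀ x : Fin n, (G.degree x : ℝ) = ∑ y : Fin n, if G.Adj x y then (1 : ℝ) else 0 := by
      intro x
      rw [← G.card_neighborFinset_eq_degree, SimpleGraph.neighborFinset_eq_filter, card_filter]
      push_cast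
      rfl
    rw [← sum_congr rfl fun x _ => h4 x, h2, ← Nat.cast_sum, h3]
    push_cast
    linarith [(Nat.cast_nonneg (α := ℝ) G.edgeFinset.card)]
  have h2 : ∀ m : Fin M, ∑ x : Fin n, ∑ y : Fin n, (if x ≠ y ∧ Avoids (A m) (B m) x y then
      (1 : ℝ) else 0) ≤ K * (n : ℝ) ^ (2 - 1 / (s : ℝ) - δ) := by
    intro m
    set J : Fin n → Finset ι := fun x => univ.filter fun j => x ∈ A m j with hJ
    set J' : Fin n → Finset ι := fun y => univ.filter fun j => y ∈ B m j with hJ'
    have hDj : ∀ x y, Dj univ J J' x y ↔ Avoids (A m) (B m) x y := by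
      intro x y
      unfold Dj Avoids
      simp only [hJ, hJ', mem_univ, mem_filter, true_and, forall_true_left, not_and]
    have hKF : KF (Dj univ J J') (univ : Finset (Fin n)) univ s (s + t) := by
      intro S _ hSc T _ hTc
      by_contra hcon
      push Not at hcon
      apply hfree
      have h3 : t ≤ (T \ S).card := by
        have := le_card_sdiff S T
        omega
      obtain ⟨T', hT', hTc'⟩ := exists_subset_card_eq h3
      refine ⟨S, T', hSc, hTc', ?_⟩
      intro x hx y hy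
      have hy2 := mem_sdiff.1 (hT' hy)
      have hxy : x ≠ y := by
        rintro rfl
        exact hy2.2 hx
      exact (hG x y hxy).2 ⟨m, (hDj x y).1 (hcon x hx y hy2.1)⟩
    have hlog : 0 ≤ Real.log n := Real.log_natCast_nonneg n
    have hcard : ((univ : Finset (Fin n)).card : ℝ) ≤ Real.exp (Real.log n) := by
      rw [Real.exp_log hn', card_univ, Fintype.card_fin]
    have h4 := hP (Fin n) (Fin n) ι univ J J' univ univ (Real.log n) hlog hcard hcard
      (by rw [card_univ]; exact hι) hKF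
    have h5 : Real.exp ((2 - 1 / (s : ℝ) - δ) * Real.log n) =
        (n : ℝ) ^ (2 - 1 / (s : ℝ) - δ) := by
      rw [Real.rpow_def_of_pos hn', mul_comm]
    rw [h5] at h4
    refine le_trans ?_ h4
    unfold ed
    refine sum_le_sum fun x _ => sum_le_sum fun y _ => ?_
    by_cases h6 : Dj univ J J' x y
    · rw [if_pos h6]
      split_ifs <;> norm_num
    · rw [if_neg h6, if_neg]
      exact fun h7 => h6 ((hDj x y).2 h7.2)
  refine h1.trans ?_
  calc ∑ x : Fin n, ∑ y : Fin n, (if G.Adj x y then (1 : ℝ) else 0)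
      ≤ ∑ x : Fin n, ∑ y : Fin n, ∑ m : Fin M, (if x ≠ y ∧ Avoids (A m) (B m) x y then
        (1 : ℝ) else 0) := by
        refine sum_le_sum fun x _ => sum_le_sum fun y _ => ?_
        have h0 : ∀ m ∈ (univ : Finset (Fin M)), (0 : ℝ) ≤
            (if x ≠ y ∧ Avoids (A m) (B m) x y then (1 : ℝ) else 0) := fun m _ => by
          split_ifs <;> norm_num
        by_cases h3 : G.Adj x y
        · rw [if_pos h3]
          have h4 : x ≠ y := h3.ne
          obtain ⟨m, hm⟩ := (hG x y h4).1 h3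
          refine le_trans ?_ (single_le_sum h0 (mem_univ m))
          rw [if_pos ⟨h4, hm⟩]
        · rw [if_neg h3]
          exact sum_nonneg h0
    _ = ∑ m : Fin M, ∑ x : Fin n, ∑ y : Fin n, (if x ≠ y ∧ Avoids (A m) (B m) x y then
        (1 : ℝ) else 0) := by
        rw [sum_comm]
        have h3 : ∀ y : Fin n, ∑ x : Fin n, ∑ m : Fin M,
            (if x ≠ y ∧ Avoids (A m) (B m) x y then (1 : ℝ) else 0) =
            ∑ m : Fin M, ∑ x : Fin n,
            (if x ≠ y ∧ Avoids (A m) (B m) x y then (1 : ℝ) else 0) := fun y => sum_comm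
        rw [sum_congr rfl fun y _ => h3 y, sum_comm]
        exact sum_congr rfl fun m _ => sum_comm
    _ ≤ ∑ _m : Fin M, K * (n : ℝ) ^ (2 - 1 / (s : ℝ) - δ) := sum_le_sum fun m _ => h2 m
    _ = K * M * (n : ℝ) ^ (2 - 1 / (s : ℝ) - δ) := by
        rw [sum_const, card_univ, Fintype.card_fin, nsmul_eq_mul]
        ring

end Pool.Agent.V5helper69.BR
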